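import Mathlib
import Pool.Agent.NH29.AB.Fin2

/-!
Project AC: base change of rational maps.
-/

set_option autoImplicit false
set_option linter.unusedSectionVars false

namespace Pool.Agent.NH29.AC

open NumberField Module MvPolynomial
open Pool.Agent.W238.Leh
open Pool.Agent.H627.LP hiding det_ineq det_ineq' local_gain
open Pool.Agent.H627.LR (GR GoodK)
open Pool.Agent.H420R3 (mi nv TP ew mem_TP)
open Pool.Agent.R829.BG hiding two_gain two_ineq classes_rel step_zero step_last core step_of
  exists_orb

noncomputable section

variable {K K' L : Type} [Field K] [NumberField K] [Field K'] [NumberField K'] [Field L]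
  [NumberField L] [Algebra K K'] [Algebra K' L] [Algebra K L] [IsScalarTower K K' L]
variable {N d : ℕ} {A : ℝ} {a : ℕ}

/-- base change -/
def bc (K' : Type) [Field K'] [Algebra K K'] (F : Fin (N + 1) → MvPolynomial (Fin (N + 1)) K) :
    Fin (N + 1) → MvPolynomial (Fin (N + 1)) K' := fun i => map (algebraMap K K') (F i)

variable {F : Fin (N + 1) → MvPolynomial (Fin (N + 1)) K}

lemma act_bc (z : Fin (N + 1) → L) : act (bc K' F) z = act F z := by
  funext i
  unfold act bc
  exact aeval_map_algebraMap K' z (F i)

lemma act_bc' : (act (bc K' F) : (Fin (N + 1) → L) → Fin (N + 1) → L) = act F :=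
  _root_.funext fun z => act_bc z

lemma canH_bc (x : Fin (N + 1) → L) : canH (bc K' F) d x = canH F d x := by
  unfold canH
  rw [act_bc' (K := K) (K' := K') (L := L) (F := F)]

lemma wnd_bc {x : Fin (N + 1) → L} (h : Wnd F x) : Wnd (bc K' F) x := by
  unfold Wnd at h ⊢
  rw [act_bc' (K := K) (K' := K') (L := L) (F := F)]
  exact h

lemma ax_bc {F : Fin (1 + 1) → MvPolynomial (Fin (1 + 1)) K} (x : Fin (1 + 1) → L) (i : ℕ) :
    ax (bc K' F) x i = ax F x i := by
  unfold ax
  rw [act_bc' (K := K) (K' := K') (L := L) (F := F)]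

lemma hom_bc (h : ∀ i, (F i).IsHomogeneous d) (i : Fin (N + 1)) :
    (bc K' F i).IsHomogeneous d := (h i).map _

theorem bds_bc (h : Bds F d A a) : Bds (bc K' F) d A a where
  hA := h.hA
  ha := h.ha
  upC := fun σ y => by
    have e : actC σ (bc K' F) y = actC (σ.comp (algebraMap K K')) F y := by
      funext i
      unfold actC bc
      rw [eval₂_map]
    rw [e]
    exact h.upC _ y
  loC := fun σ y => by
    have e : actC σ (bc K' F) y = actC (σ.comp (algebraMap K K')) F y := by
      funext i
      unfold actC bc
      rw [eval₂_map]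
    rw [e]
    exact h.loC _ y
  upf := fun L _ _ _ v z => by
    letI : Algebra K L := ((algebraMap K' L).comp (algebraMap K K')).toAlgebra
    haveI : IsScalarTower K K' L := IsScalarTower.of_algebraMap_eq fun x => rfl
    rw [act_bc]
    exact h.upf L v z
  lof := fun L _ _ _ v z => by
    letI : Algebra K L := ((algebraMap K' L).comp (algebraMap K K')).toAlgebra
    haveI : IsScalarTower K K' L := IsScalarTower.of_algebraMap_eq fun x => rfl
    rw [act_bc]
    exact h.lof L v z

theorem gr_bc {w : FinitePlace L} (h : GR w F d) : GR w (bc K' F) d where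
  int := fun i => by
    have e : map (algebraMap K' L) (bc K' F i) = map (algebraMap K L) (F i) := by
      unfold bc
      rw [map_map, ← IsScalarTower.algebraMap_eq]
    rw [e]
    exact h.int i
  nm := fun x => by
    rw [act_bc]
    exact h.nm x

theorem span_bc {c : ℕ} (h : ∀ m, c + d ≤ m → ∀ p : MvPolynomial (Fin (N + 1)) K,
    p.IsHomogeneous m → p ∈ Ideal.span (Set.range F)) (m : ℕ) (hm : c + d ≤ m)
    (p : MvPolynomial (Fin (N + 1)) K') (hp : p.IsHomogeneous m) :
    p ∈ Ideal.span (Set.range (bc K' F)) := by
  classical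
  rw [p.as_sum]
  refine Ideal.sum_mem _ fun s hs => ?_
  have h1 : (monomial s (1 : K)).IsHomogeneous m := by
    apply isHomogeneous_monomial
    have := hp (mem_support_iff.1 hs)
    rw [Finsupp.degree_eq_weight_one]
    exact this
  have h2 := Ideal.mem_map_of_mem (map (algebraMap K K')) (h m hm _ h1)
  rw [Ideal.map_span, ← Set.range_comp, map_monomial, map_one] at h2
  have h3 : monomial s (coeff s p) = C (coeff s p) * monomial s (1 : K') := by
    rw [C_mul_monomial, mul_one]
  rw [h3]
  exact Ideal.mul_mem_left _ _ h2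

end

end Pool.Agent.NH29.AC
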