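import Pool.Agent.NH29.AC.Stm

/-!
# Project AC, AC-CON: the index of the centralizer
-/

set_option autoImplicit false

namespace Pool.Agent.NH29.AC

theorem con : S_CON := by
  intro G _ _ τ
  have h1 : (Subgroup.centralizer {ConjAct.toConjAct τ}).index =
      (MulAction.orbit (ConjAct G) τ).ncard := by
    rw [← ConjAct.stabilizer_eq_centralizer, MulAction.index_stabilizer]
  have h2 : (Subgroup.centralizer {τ}).index =
      (Subgroup.centralizer {ConjAct.toConjAct τ}).index := rfl
  have h : MulAction.orbit (ConjAct G) τ = Set.range fun g : G => g * τ * g⁻¹ := by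
    ext x
    constructor
    · rintro ⟨g, rfl⟩
      exact ⟨ConjAct.ofConjAct g, rfl⟩
    · rintro ⟨g, rfl⟩
      exact ⟨ConjAct.toConjAct g, rfl⟩
  rw [h2, h1, h]

end Pool.Agent.NH29.AC
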