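import Pool.Agent.NH29.AC.Stm2

/-!
# Project AC, part CLO: Galois closure of an abelian extension (helper54)
-/

set_option autoImplicit false
set_option linter.unusedSectionVars false
set_option maxHeartbeats 1000000

namespace Pool.Agent.NH29.AC

open Module IntermediateField

namespace CloP

section core

variable {K K' L M : Type} [Field K] [Field K'] [Field L] [Field M] [Algebra K K'] [Algebra K' L]
  [Algebra K L] [IsScalarTower K K' L] [Algebra K M] [Algebra L M] [IsScalarTower K L M]

/-- the embedding of `K'` -/
noncomputable def ik (K K' L M : Type) [Field K] [Field K'] [Field L] [Field M] [Algebra K K']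
    [Algebra K' L] [Algebra K L] [IsScalarTower K K' L] [Algebra K M] [Algebra L M]
    [IsScalarTower K L M] : K' →ₐ[K] M :=
  (IsScalarTower.toAlgHom K L M).comp (IsScalarTower.toAlgHom K K' L)

/-- the automorphisms that fix `K'` -/
noncomputable def HH (K K' L M : Type) [Field K] [Field K'] [Field L] [Field M] [Algebra K K']
    [Algebra K' L] [Algebra K L] [IsScalarTower K K' L] [Algebra K M] [Algebra L M]
    [IsScalarTower K L M] : Subgroup Gal(M/K) := (ik K K' L M).fieldRange.fixingSubgroup

/-- the automorphisms that fix `L` -/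
noncomputable def NN (K L M : Type) [Field K] [Field L] [Field M] [Algebra K L] [Algebra K M]
    [Algebra L M] [IsScalarTower K L M] : Subgroup Gal(M/K) :=
  (IsScalarTower.toAlgHom K L M).fieldRange.fixingSubgroup

theorem mem_HH (τ : Gal(M/K)) :
    τ ∈ HH K K' L M ↔ ∀ x : K', τ (algebraMap L M (algebraMap K' L x)) =
      algebraMap L M (algebraMap K' L x) := by
  unfold HH
  rw [IntermediateField.mem_fixingSubgroup_iff]
  constructor
  · intro h x
    exact h _ ⟨x, rfl⟩
  · rintro h _ ⟨x, rfl⟩
    exact h x

theorem mem_NN (τ : Gal(M/K)) :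
    τ ∈ NN K L M ↔ ∀ y : L, τ (algebraMap L M y) = algebraMap L M y := by
  unfold NN
  rw [IntermediateField.mem_fixingSubgroup_iff]
  constructor
  · intro h x
    exact h _ ⟨x, rfl⟩
  · rintro h _ ⟨x, rfl⟩
    exact h x

theorem index_HH [FiniteDimensional K M] [IsGalois K M] :
    (HH K K' L M).index = finrank K K' := by
  have h0 : finrank K (ik K K' L M).fieldRange = finrank K K' :=
    ((AlgEquiv.ofInjectiveField (ik K K' L M)).toLinearEquiv.finrank_eq).symm
  rw [← h0]
  have e1 : finrank K (ik K K' L M).fieldRange * finrank (ik K K' L M).fieldRange M =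
      finrank K M := finrank_mul_finrank K _ M
  have e2 : finrank (ik K K' L M).fieldRange M = Nat.card (HH K K' L M) := by
    unfold HH
    rw [← IntermediateField.finrank_fixedField_eq_card, IsGalois.fixedField_fixingSubgroup]
  have e3 := Subgroup.index_mul_card (HH K K' L M)
  rw [IsGalois.card_aut_eq_finrank, ← e1, e2] at e3
  exact Nat.eq_of_mul_eq_mul_right Nat.card_pos e3

/-- the restriction of an automorphism that fixes `K'` to the normal extension `L` -/
theorem exists_res [Normal K' L] {g : Gal(M/K)} (hg : g ∈ HH K K' L M) :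
    ∃ r : Gal(L/K'), ∀ y : L, g (algebraMap L M y) = algebraMap L M (r y) := by
  let _ : Algebra K' M := ((algebraMap L M).comp (algebraMap K' L)).toAlgebra
  have hst : IsScalarTower K' L M := IsScalarTower.of_algebraMap_eq (fun x => rfl)
  rw [mem_HH] at hg
  let g' : M ≃ₐ[K'] M := AlgEquiv.ofRingEquiv (f := g.toRingEquiv) (fun x => hg x)
  exact ⟨g'.restrictNormal L, fun y => (AlgEquiv.restrictNormal_commutes g' L y).symm⟩

theorem comm_mem [Normal K' L] (hab : ∀ g h : Gal(L/K'), g * h = h * g) {g h : Gal(M/K)}
    (hg : g ∈ HH K K' L M) (hh : h ∈ HH K K' L M) : g * h * g⁻¹ * h⁻¹ ∈ NN K L M := by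
  rw [mem_NN]
  intro y
  obtain ⟨r, hr⟩ := exists_res hg
  obtain ⟨s, hs⟩ := exists_res hh
  obtain ⟨r', hr'⟩ := exists_res (inv_mem hg)
  obtain ⟨s', hs'⟩ := exists_res (inv_mem hh)
  have hc : ∀ z : L, g (h (algebraMap L M z)) = h (g (algebraMap L M z)) := by
    intro z
    rw [hs, hr, hr, hs]
    congr 1
    exact congrArg (fun f : Gal(L/K') => f z) (hab r s)
  change g (h (g⁻¹ (h⁻¹ (algebraMap L M y)))) = algebraMap L M y
  rw [hs', hr', hc, ← hr', ← hs']
  have e1 : ∀ z : M, g (g⁻¹ z) = z := fun z => g.apply_symm_apply z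
  have e2 : ∀ z : M, h (h⁻¹ z) = z := fun z => h.apply_symm_apply z
  rw [e1, e2]

theorem core_bot [FiniteDimensional K M] [IsGalois K M] [hM : IsNormalClosure K L M] :
    (NN K L M).normalCore = ⊥ := by
  have h1 : (⊤ : IntermediateField K M) ≤ fixedField (NN K L M).normalCore := by
    rw [← hM.adjoin_rootSet]
    refine iSup_le fun y => ?_
    rw [IntermediateField.adjoin_le_iff]
    intro z hz
    have hint : IsIntegral K (algebraMap L M y) := Algebra.IsIntegral.isIntegral _
    have hmin : minpoly K (algebraMap L M y) = minpoly K y :=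
      minpoly.algHom_eq (IsScalarTower.toAlgHom K L M)
        (IsScalarTower.toAlgHom K L M).injective y
    have hz2 : Polynomial.aeval z (minpoly K (algebraMap L M y)) = 0 := by
      rw [hmin]
      exact (Polynomial.mem_rootSet.1 hz).2
    obtain ⟨x, hx⟩ := minpoly.exists_algEquiv_of_root' hint.isAlgebraic hz2
    change z ∈ fixedField (NN K L M).normalCore
    rw [IntermediateField.mem_fixedField_iff]
    intro τ hτ
    have h2 : x⁻¹ * τ * (x⁻¹)⁻¹ ∈ NN K L M := hτ x⁻¹
    rw [mem_NN] at h2
    have h3 := h2 y
    rw [inv_inv] at h3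
    have h4 := congrArg x h3
    have e2 : ∀ z : M, x (x⁻¹ z) = z := fun z => x.apply_symm_apply z
    change x (x⁻¹ (τ (x (algebraMap L M y)))) = x (algebraMap L M y) at h4
    rw [e2, hx] at h4
    exact h4
  have h2 : fixedField (NN K L M).normalCore = ⊤ := top_le_iff.1 h1
  rw [← IntermediateField.fixingSubgroup_fixedField (NN K L M).normalCore, h2,
    IntermediateField.fixingSubgroup_top]

end core

end CloP

open CloP in
theorem clo : S_CLO := by
  intro K K' L _ _ _ _ _ _ _ _ _ _ _ m hm hab
  have hKL : FiniteDimensional K L := Module.Finite.of_restrictScalars_finite ℚ K L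
  have hA : IsAlgClosure K (AlgebraicClosure L) := inferInstance
  have hN : Normal K (AlgebraicClosure L) := IsAlgClosure.normal K _
  have hne : Nonempty (L →ₐ[K] AlgebraicClosure L) := ⟨IsScalarTower.toAlgHom K L _⟩
  have hfd : FiniteDimensional K (normalClosure K L (AlgebraicClosure L)) := inferInstance
  have hnf : NumberField (normalClosure K L (AlgebraicClosure L)) :=
    NumberField.of_module_finite K _
  have hnm : Normal K (normalClosure K L (AlgebraicClosure L)) := inferInstance
  have hgal : IsGalois K (normalClosure K L (AlgebraicClosure L)) := ⟨⟩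
  have hnc : IsNormalClosure K L (normalClosure K L (AlgebraicClosure L)) := inferInstance
  refine ⟨normalClosure K L (AlgebraicClosure L), inferInstance, hnf, inferInstance, inferInstance,
    inferInstance, hgal, HH K K' L _, NN K L _, ?_, ?_, ?_⟩
  · rw [index_HH]
    exact hm
  · intro g hg h hh
    exact comm_mem hab hg hh
  · exact core_bot

end Pool.Agent.NH29.AC
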