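import Pool.Agent.NH29.AC.Stm3
import Pool.Agent.NH29.AC.Clo
import Pool.Agent.NH29.AC.Cent

/-!
# Project AC, part CLO2: Galois closure of a Galois extension of an extension of bounded degree
-/

set_option autoImplicit false
set_option linter.unusedSectionVars false
set_option maxHeartbeats 1000000

namespace Pool.Agent.NH29.AC

open Module IntermediateField

namespace Clo2P

open CloP

section core

variable {K K' L M : Type} [Field K] [Field K'] [Field L] [Field M] [Algebra K K'] [Algebra K' L]
  [Algebra K L] [IsScalarTower K K' L] [Algebra K M] [Algebra L M] [IsScalarTower K L M]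

/-- the restriction, as a map -/
noncomputable def phi0 [Normal K' L] (g : HH K K' L M) : Gal(L/K') :=
  Classical.choose (exists_res g.2)

theorem phi0_spec [Normal K' L] (g : HH K K' L M) (y : L) :
    (g : Gal(M/K)) (algebraMap L M y) = algebraMap L M (phi0 g y) :=
  Classical.choose_spec (exists_res g.2) y

theorem phi0_mul [Normal K' L] (g h : HH K K' L M) : phi0 (g * h) = phi0 g * phi0 h := by
  refine AlgEquiv.ext fun y => ?_
  apply (algebraMap L M).injective
  rw [← phi0_spec]
  change (g : Gal(M/K)) ((h : Gal(M/K)) (algebraMap L M y)) = algebraMap L M (phi0 g (phi0 h y))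
  rw [phi0_spec, phi0_spec]

/-- the restriction, as a homomorphism -/
noncomputable def phi [Normal K' L] : HH K K' L M →* Gal(L/K') := MonoidHom.mk' phi0 phi0_mul

theorem mem_of_phi [Normal K' L] (g : HH K K' L M) (h : phi g = 1) : (g : Gal(M/K)) ∈ NN K L M := by
  rw [mem_NN]
  intro y
  rw [phi0_spec]
  change phi0 g = 1 at h
  rw [h]
  rfl

theorem normalized [Normal K' L] (h : Gal(M/K)) (hh : h ∈ HH K K' L M) (n : Gal(M/K))
    (hn : n ∈ NN K L M) : h * n * h⁻¹ ∈ NN K L M := by
  rw [mem_NN] at hn ⊢
  intro y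
  obtain ⟨r, hr⟩ := exists_res (inv_mem hh)
  change h (n (h⁻¹ (algebraMap L M y))) = algebraMap L M y
  rw [hr, hn, ← hr]
  exact h.apply_symm_apply _

theorem centr [Normal K' L] [Finite Gal(L/K')] (m : ℕ)
    (hm : ∀ σ : Gal(L/K'), (Set.range fun g : Gal(L/K') => g * σ ^ m * g⁻¹).ncard ≤ m)
    (σ : Gal(M/K)) (hσ : σ ∈ HH K K' L M) :
    ∃ Z : Subgroup Gal(M/K), Z ≤ HH K K' L M ∧ Z.relIndex (HH K K' L M) ≤ m ∧
      ∀ g ∈ Z, g * σ ^ m * g⁻¹ * (σ ^ m)⁻¹ ∈ NN K L M := by
  set s : Gal(L/K') := phi ⟨σ, hσ⟩ with hs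
  refine ⟨((Subgroup.centralizer {s ^ m}).comap (phi (M := M))).map (HH K K' L M).subtype,
    Subgroup.map_subtype_le _, ?_, ?_⟩
  · rw [Subgroup.relIndex, Subgroup.subgroupOf,
      Subgroup.comap_map_eq_self_of_injective (Subgroup.subtype_injective _), Subgroup.index_comap]
    have h1 : (Subgroup.centralizer {s ^ m}).index ≤ m := by
      rw [con Gal(L/K') (s ^ m)]
      exact hm s
    refine (Subgroup.relIndex_le_of_le_right le_top ?_).trans ?_
    · rw [Subgroup.relIndex_top_right]
      exact Subgroup.index_ne_zero_of_finite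
    · rw [Subgroup.relIndex_top_right]
      exact h1
  · rintro _ ⟨g, hg, rfl⟩
    have hg1 : phi g ∈ Subgroup.centralizer {s ^ m} := hg
    have hg2 : s ^ m * phi g = phi g * s ^ m := Subgroup.mem_centralizer_iff.1 hg1 (s ^ m) rfl
    have h2 : phi (g * ⟨σ, hσ⟩ ^ m * g⁻¹ * (⟨σ, hσ⟩ ^ m)⁻¹) = 1 := by
      rw [map_mul, map_mul, map_mul, map_inv, map_inv, map_pow, ← hs, ← hg2]
      group
    exact mem_of_phi _ h2

end core

end Clo2P

open CloP Clo2P in
theorem clo2 : S_CLO2 := by
  intro K K' L _ _ _ _ _ _ _ _ _ _ _ m hm hab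
  have hKL : FiniteDimensional K L := Module.Finite.of_restrictScalars_finite ℚ K L
  have hKL' : FiniteDimensional K' L := Module.Finite.of_restrictScalars_finite ℚ K' L
  have hA : IsAlgClosure K (AlgebraicClosure L) := inferInstance
  have hN : Normal K (AlgebraicClosure L) := IsAlgClosure.normal K _
  have hne : Nonempty (L →ₐ[K] AlgebraicClosure L) := ⟨IsScalarTower.toAlgHom K L _⟩
  have hfd : FiniteDimensional K (normalClosure K L (AlgebraicClosure L)) := inferInstance
  have hnf : NumberField (normalClosure K L (AlgebraicClosure L)) :=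
    NumberField.of_module_finite K _
  have hnm : Normal K (normalClosure K L (AlgebraicClosure L)) := inferInstance
  have hgal : IsGalois K (normalClosure K L (AlgebraicClosure L)) := ⟨⟩
  have hnc : IsNormalClosure K L (normalClosure K L (AlgebraicClosure L)) := inferInstance
  refine ⟨normalClosure K L (AlgebraicClosure L), inferInstance, hnf, inferInstance, inferInstance,
    inferInstance, hgal, HH K K' L _, NN K L _, ?_, ?_, ?_, ?_⟩
  · rw [index_HH]
    exact hm
  · intro h hh n hn
    exact normalized h hh n hn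
  · intro σ hσ
    exact centr m hab σ hσ
  · exact core_bot

end Pool.Agent.NH29.AC
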