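import Pool.Agent.NH29.AC.Stm2
import Pool.Agent.NH29.AC.Cent

/-!
# Project AC, AC-COR: powers and conjugates
-/

set_option autoImplicit false

namespace Pool.Agent.NH29.AC

open Nat

namespace CORA

variable {G : Type} [Group G] [Finite G]

theorem card_perm (H : Subgroup G) : Nat.card (Equiv.Perm (G ⧸ H)) = (H.index)! := by
  classical
  have : Fintype (G ⧸ H) := Fintype.ofFinite _
  rw [Nat.card_eq_fintype_card, Fintype.card_perm, ← Nat.card_eq_fintype_card]
  rfl

theorem pow_mem (H : Subgroup G) {m : ℕ} (hm : H.index ≤ m) (σ : G) :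
    σ ^ (m !) ∈ H.normalCore := by
  rw [Subgroup.normalCore_eq_ker, MonoidHom.mem_ker, map_pow]
  have h1 : orderOf (MulAction.toPermHom G (G ⧸ H) σ) ∣ (m !) := by
    refine (orderOf_dvd_natCard _).trans ?_
    rw [card_perm]
    exact Nat.factorial_dvd_factorial hm
  exact orderOf_dvd_iff_pow_eq_one.1 h1

theorem index_le (H : Subgroup G) {m : ℕ} (hm : H.index ≤ m) : H.normalCore.index ≤ m ! := by
  rw [Subgroup.normalCore_eq_ker, Subgroup.index_ker]
  have h1 : Nat.card (MulAction.toPermHom G (G ⧸ H)).range ∣ Nat.card (Equiv.Perm (G ⧸ H)) :=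
    Subgroup.card_subgroup_dvd_card _
  have h2 : Nat.card (MulAction.toPermHom G (G ⧸ H)).range ≤ Nat.card (Equiv.Perm (G ⧸ H)) :=
    Nat.le_of_dvd Nat.card_pos h1
  rw [card_perm] at h2
  exact h2.trans (Nat.factorial_le hm)

theorem core_comm {H N : Subgroup G} (h : ∀ g ∈ H, ∀ h ∈ H, g * h * g⁻¹ * h⁻¹ ∈ N)
    (hN : N.normalCore = ⊥) {a b : G} (ha : a ∈ H.normalCore) (hb : b ∈ H.normalCore) :
    a * b = b * a := by
  have hn : H.normalCore.Normal := inferInstance
  have h1 : a * b * a⁻¹ * b⁻¹ ∈ N.normalCore := by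
    intro x
    have hx := h (x * a * x⁻¹) (H.normalCore_le (hn.conj_mem a ha x)) (x * b * x⁻¹)
      (H.normalCore_le (hn.conj_mem b hb x))
    have e : x * (a * b * a⁻¹ * b⁻¹) * x⁻¹ =
        x * a * x⁻¹ * (x * b * x⁻¹) * (x * a * x⁻¹)⁻¹ * (x * b * x⁻¹)⁻¹ := by group
    rw [e]
    exact hx
  rw [hN, Subgroup.mem_bot] at h1
  have h2 : a * b * a⁻¹ = b := by
    have := congrArg (fun z => z * b) h1
    simpa using this
  have h3 := congrArg (fun z => z * a) h2
  simpa using h3

end CORA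

open CORA in
theorem cor : S_COR := by
  intro G _ _ H N m hm h hN σ
  have h1 : H.normalCore ≤ Subgroup.centralizer {σ ^ (m !)} := by
    intro a ha
    rw [Subgroup.mem_centralizer_iff]
    rintro b rfl
    exact core_comm h hN (pow_mem H hm σ) ha
  have h2 : (Subgroup.centralizer {σ ^ (m !)}).index ≤ H.normalCore.index := by
    have h3 := Subgroup.index_dvd_of_le h1
    exact Nat.le_of_dvd (Nat.pos_of_ne_zero Subgroup.index_ne_zero_of_finite) h3
  have h4 := con G (σ ^ (m !))
  rw [← h4]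
  exact h2.trans (index_le H hm)

end Pool.Agent.NH29.AC
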