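import Pool.Agent.NH29.AC.Stm4
import Pool.Agent.NH29.AC.Cor

/-!
# Project AC, AC-COR3: powers and conjugates, with three parameters (adapted from helper55's Cor2)
-/

set_option autoImplicit false

namespace Pool.Agent.NH29.AC

open Nat

open CORA in
theorem cor3 : S_COR3 := by
  classical
  intro G _ _ H N r m B hm hm1 hN hZ hcore σ
  choose! Z hZ1 hZ2 hZ3 using hZ
  set t : G := σ ^ (r !) with ht
  have htm : t ∈ H.normalCore := pow_mem H hm σ
  have hn : H.normalCore.Normal := inferInstance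
  have : Fintype (G ⧸ H) := Fintype.ofFinite _
  set y : G ⧸ H → G := fun q => Quotient.out q with hy
  set s : G ⧸ H → G := fun q => (y q)⁻¹ * t * y q with hs
  have hs0 : ∀ q, s q ∈ H := fun q => by
    have h1 := hn.conj_mem t htm (y q)⁻¹
    rw [inv_inv] at h1
    exact H.normalCore_le h1
  set W : G ⧸ H → Subgroup G := fun q => (Z (s q)).comap (MulAut.conj (y q)⁻¹).toMonoidHom with hW
  set V : Subgroup G := H.normalCore ⊓ ⨅ q, W q with hV
  -- the index of `V`
  have hWq : ∀ q, (W q).relIndex H.normalCore ≤ B := by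
    intro q
    have h1 : (W q).relIndex H.normalCore =
        (Z (s q)).relIndex (H.normalCore.map (MulAut.conj (y q)⁻¹).toMonoidHom) :=
      Subgroup.relIndex_comap _ _ _
    have h2 : H.normalCore.map (MulAut.conj (y q)⁻¹).toMonoidHom ≤ H := by
      rintro _ ⟨a, ha, rfl⟩
      have h3 := hn.conj_mem a ha (y q)⁻¹
      exact H.normalCore_le h3
    rw [h1]
    exact (Subgroup.relIndex_le_of_le_right h2 Subgroup.index_ne_zero_of_finite).trans
      (hZ2 _ (hs0 q))
  have hI : (⨅ q, W q).relIndex H.normalCore ≤ B ^ r := by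
    refine (Subgroup.relIndex_iInf_le W).trans ?_
    refine (Finset.prod_le_pow_card _ _ B fun q _ => hWq q).trans ?_
    refine Nat.pow_le_pow_right hm1 ?_
    rw [Finset.card_univ, ← Nat.card_eq_fintype_card]
    exact hm
  have hVi : V.index ≤ r ! * B ^ r := by
    rw [← Subgroup.relIndex_mul_index (inf_le_left : V ≤ H.normalCore),
      Subgroup.inf_relIndex_left, mul_comm]
    exact Nat.mul_le_mul (index_le H hm) hI
  -- `V` centralizes
  have hcen : V ≤ Subgroup.centralizer {σ ^ (r ! * m)} := by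
    intro k hk
    rw [Subgroup.mem_centralizer_iff]
    rintro b rfl
    rw [pow_mul, ← ht]
    have h1 : k * t ^ m * k⁻¹ * (t ^ m)⁻¹ ∈ N.normalCore := by
      intro x
      set q : G ⧸ H := QuotientGroup.mk x⁻¹ with hq
      have h2 : (y q)⁻¹ * x⁻¹ ∈ H := by
        rw [← QuotientGroup.eq]
        exact Quotient.out_eq q
      have h3 : (y q)⁻¹ * k * y q ∈ Z (s q) := by
        have h4 := (Subgroup.mem_iInf.1 hk.2) q
        have h5 : (MulAut.conj (y q)⁻¹).toMonoidHom k ∈ Z (s q) := h4
        have h6 : (MulAut.conj (y q)⁻¹).toMonoidHom k = (y q)⁻¹ * k * y q := by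
          simp
        rwa [h6] at h5
      have h7 := hZ3 (s q) (hs0 q) _ h3
      have h8 : s q ^ m = (y q)⁻¹ * t ^ m * y q := by
        have h9 := (conj_pow (i := m) (a := (y q)⁻¹) (b := t))
        rw [inv_inv] at h9
        exact h9
      rw [h8] at h7
      have h10 := hN _ (H.inv_mem h2) _ h7
      have e : ((y q)⁻¹ * x⁻¹)⁻¹ * ((y q)⁻¹ * k * y q * ((y q)⁻¹ * t ^ m * y q) *
          ((y q)⁻¹ * k * y q)⁻¹ * ((y q)⁻¹ * t ^ m * y q)⁻¹) * ((y q)⁻¹ * x⁻¹)⁻¹⁻¹ =
          x * (k * t ^ m * k⁻¹ * (t ^ m)⁻¹) * x⁻¹ := by group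
      rw [e] at h10
      exact h10
    rw [hcore, Subgroup.mem_bot] at h1
    have h2 : k * t ^ m * k⁻¹ = t ^ m := by
      have := congrArg (fun z => z * t ^ m) h1
      simpa using this
    have h3 := congrArg (fun z => z * k) h2
    simpa using h3.symm
  have h2 : (Subgroup.centralizer {σ ^ (r ! * m)}).index ≤ V.index :=
    Nat.le_of_dvd (Nat.pos_of_ne_zero Subgroup.index_ne_zero_of_finite)
      (Subgroup.index_dvd_of_le hcen)
  rw [← con G (σ ^ (r ! * m))]
  exact h2.trans hVi

end Pool.Agent.NH29.AC
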