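import Mathlib

/-!
# Project AC (MP_2194ec_nt): statements of the light jobs
-/

set_option autoImplicit false

namespace Pool.Agent.NH29.AC

open NumberField Module
open scoped Pointwise

/-- AC-GRP: the primes which divide the order of a transitive group. -/
def S_GRP : Prop :=
  ∀ (G X : Type) [Group G] [Finite G] [Finite X] [MulAction G X] [MulAction.IsPretransitive G X]
    [FaithfulSMul G X] (m B p : ℕ),
    (∀ σ : G, (Set.range fun g : G => g * σ ^ m * g⁻¹).ncard ≤ B) → p.Prime → ¬ p ∣ m → B < p →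
    ¬ p ∣ Nat.card X → ¬ p ∣ Nat.card G

/-- AC-ORB: orbits of a subgroup. -/
def S_ORB : Prop :=
  ∀ (G X : Type) [Group G] [Finite G] [MulAction G X] (H : Subgroup G) (z : X),
    (MulAction.orbit G z).ncard ≤ H.index * (MulAction.orbit H z).ncard

/-- AC-NRM: the norm of the prime below, if a Frobenius element fixes the intermediate field. -/
def S_NRM : Prop :=
  ∀ (K K' E : Type) [Field K] [NumberField K] [Field K'] [NumberField K'] [Field E]
    [NumberField E] [Algebra K K'] [Algebra K' E] [Algebra K E] [IsScalarTower K K' E]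
    (P : Ideal (𝓞 K)) [P.IsMaximal], P ≠ ⊥ → ∀ 𝔓 : Ideal (𝓞 E), 𝔓.IsPrime →
    𝔓.under (𝓞 K) = P → ∀ φ : Gal(E/K'), (∀ x : 𝓞 E, φ • x - x ^ P.absNorm ∈ 𝔓) →
    (𝔓.under (𝓞 K')).absNorm = P.absNorm

/-- AC-CON: the centralizer of an element with at most `B` conjugates. -/
def S_CON : Prop :=
  ∀ (G : Type) [Group G] [Finite G] (τ : G),
    (Subgroup.centralizer {τ}).index = (Set.range fun g : G => g * τ * g⁻¹).ncard

end Pool.Agent.NH29.AC
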