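import Mathlib
import Pool.Agent.NH29.AC.Base
import Pool.Agent.NH29.AC.Stm

/-!
Project AC: the fixed field of the centralizer of a power of a Frobenius element.
-/

set_option autoImplicit false
set_option linter.unusedSectionVars false

namespace Pool.Agent.NH29.AC

open NumberField Module MvPolynomial
open Pool.Agent.W238.Leh
open Pool.Agent.H627.LP hiding det_ineq det_ineq' local_gain
open Pool.Agent.H627.LR (GR GoodK)
open Pool.Agent.H420R3 (mi nv TP ew mem_TP)
open scoped Pointwise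

noncomputable section

variable {K L : Type} [Field K] [NumberField K] [Field L] [NumberField L] [Algebra K L]

theorem exists_field [IsGalois K L] (nrm : S_NRM) (con : S_CON) {P : Ideal (𝓞 K)}
    [hP : P.IsMaximal] (hP0 : P ≠ ⊥) {m B : ℕ}
    (hcon : ∀ σ : Gal(L/K), (Set.range fun g : Gal(L/K) => g * σ ^ m * g⁻¹).ncard ≤ B) :
    ∃ K' : IntermediateField K L, finrank K K' ≤ B ∧ ∃ (v' : FinitePlace K') (τ : Gal(L/K')),
      (mi v').under (𝓞 K) = P ∧ (mi v').absNorm = P.absNorm ∧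
      (∀ g : Gal(L/K'), g * τ = τ * g) ∧ ∀ w ∈ TP L (mi v'), FrobAt w τ (P.absNorm ^ m) := by
  classical
  obtain ⟨v₁, hv₁⟩ := H420R3.TP_nonempty (M := L) (P := P) hP0
  obtain ⟨φ, h1, h2⟩ := H420R3.exists_frob (K := K) hP0 hv₁ 1
  simp only [pow_one] at h2
  have hlo₁ := H420R3.liesOver_of_mem hP0 hv₁
  obtain ⟨H, hH⟩ : ∃ H, H = Subgroup.centralizer {φ ^ m} := ⟨_, rfl⟩
  obtain ⟨K', hK'⟩ : ∃ K', K' = IntermediateField.fixedField H := ⟨_, rfl⟩
  have hfix : K'.fixingSubgroup = H := by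
    rw [hK']
    exact IntermediateField.fixingSubgroup_fixedField H
  have hφ : φ ∈ K'.fixingSubgroup := by
    rw [hfix, hH, Subgroup.mem_centralizer_iff]
    intro h hh
    rw [Set.mem_singleton_iff.1 hh]
    exact (Commute.refl φ).pow_left m
  obtain ⟨e, he⟩ : ∃ e : K'.fixingSubgroup ≃* Gal(L/K'),
      e = IntermediateField.fixingSubgroupEquiv K' := ⟨_, rfl⟩
  obtain ⟨φ', hφ'⟩ : ∃ φ', φ' = e ⟨φ, hφ⟩ := ⟨_, rfl⟩
  have hsm : ∀ x : 𝓞 L, φ' • x = φ • x := by
    intro x
    rw [hφ', he]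
    rfl
  -- the degree
  have hdeg : finrank K K' ≤ B := by
    have e1 : finrank K K' * finrank K' L = finrank K L := finrank_mul_finrank K K' L
    have e2 : finrank K' L = Nat.card H := by
      rw [hK']
      exact IntermediateField.finrank_fixedField_eq_card H
    have e3 := Subgroup.index_mul_card H
    rw [IsGalois.card_aut_eq_finrank, ← e1, e2] at e3
    have e4 : 0 < Nat.card H := Nat.card_pos
    have e5 : H.index = finrank K K' := Nat.eq_of_mul_eq_mul_right e4 e3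
    rw [← e5, hH, con Gal(L/K) (φ ^ m)]
    exact hcon φ
  refine ⟨K', hdeg, ?_⟩
  -- the place
  have hun : ((mi v₁).under (𝓞 K')).under (𝓞 K) = P := by
    rw [Ideal.under_under]
    exact hlo₁.over.symm
  have hlo' : ((mi v₁).under (𝓞 K')).LiesOver P := ⟨hun.symm⟩
  have hb : (mi v₁).under (𝓞 K') ≠ ⊥ := Ideal.ne_bot_of_liesOver_of_ne_bot hP0 _
  let u : IsDedekindDomain.HeightOneSpectrum (𝓞 K') :=
    ⟨(mi v₁).under (𝓞 K'), inferInstance, hb⟩
  obtain ⟨v', hv'⟩ : ∃ v' : FinitePlace K', v' = FinitePlace.mk u := ⟨_, rfl⟩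
  have hmi : mi v' = (mi v₁).under (𝓞 K') := by
    unfold mi
    rw [hv', FinitePlace.maximalIdeal_mk]
  -- powers
  have hcomm : ∀ g : Gal(L/K'), g * φ' ^ m = φ' ^ m * g := by
    intro g
    obtain ⟨s, rfl⟩ := e.surjective g
    rw [hφ', ← map_pow, ← map_mul, ← map_mul]
    congr 1
    apply Subtype.ext
    have h3 : s.1 ∈ H := by rw [← hfix]; exact s.2
    rw [hH, Subgroup.mem_centralizer_iff] at h3
    exact (h3 _ rfl).symm
  have hfr : FrobAt (K := K') v₁ φ' P.absNorm := by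
    refine ⟨?_, fun x => ?_⟩
    · refine Eq.trans ?_ h1
      change Ideal.map _ (mi v₁) = Ideal.map _ (mi v₁)
      congr 1
      exact RingHom.ext fun x => hsm x
    · rw [hsm]
      exact h2 x
  refine ⟨v', φ' ^ m, by rw [hmi]; exact hun, ?_, hcomm, fun w hw => ?_⟩
  · rw [hmi]
    exact nrm K K' L P hP0 (mi v₁) inferInstance hlo₁.over.symm φ' hfr.2
  · have hb' : mi v' ≠ ⊥ := by rw [hmi]; exact hb
    have hlo := H420R3.liesOver_of_mem hb' hw
    have hlo₁' : (mi v₁).LiesOver (mi v') := ⟨hmi⟩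
    obtain ⟨g, hg⟩ := Ideal.exists_smul_eq_of_isGaloisGroup (mi v') (mi v₁) (mi w) Gal(L/K')
    exact (hfr.pow m).conj hg (hcomm g).symm

end

end Pool.Agent.NH29.AC
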