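import Mathlib
import Pool.Agent.NH29.AC.Fld

/-!
Project AC: the lower bound at a prime, for groups in which the `m`-th powers have few conjugates.
-/

set_option autoImplicit false
set_option linter.unusedSectionVars false

namespace Pool.Agent.NH29.AC

open NumberField Module Polynomial
open Pool.Agent.W238.Leh
open Pool.Agent.H627.LP hiding det_ineq det_ineq' local_gain
open Pool.Agent.H627.LR (GR GoodK)
open Pool.Agent.H420R3 (mi nv TP ew mem_TP)
open Pool.Agent.R829.BG hiding two_gain two_ineq classes_rel step_zero step_last core step_of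
  exists_orb
open Pool.Agent.R829.BH (Fr Pr2 fr_of canH_vec ram_bound)
open Pool.Agent.NH29.AB

noncomputable section

variable {K : Type} [Field K] [NumberField K] {L : Type} [Field L] [NumberField L] [Algebra K L]
variable {F : Fin (1 + 1) → MvPolynomial (Fin (1 + 1)) K} {d c a : ℕ} {A : ℝ}
variable {v₀ : FinitePlace K}

/-- the numbers of conjugates over `K` and over an intermediate field -/
theorem card_cj_le [DecidableEq L] [IsGalois K L] (orb : S_ORB) (K' : IntermediateField K L)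
    (z : L) : (cj K z).card ≤ finrank K K' * (cj K' z).card := by
  classical
  have h1 := orb Gal(L/K) L K'.fixingSubgroup z
  have h2 : K'.fixingSubgroup.index = finrank K K' := by
    have e1 : finrank K K' * finrank K' L = finrank K L := finrank_mul_finrank K K' L
    have e2 : finrank K' L = Nat.card K'.fixingSubgroup := by
      rw [← IntermediateField.finrank_fixedField_eq_card, IsGalois.fixedField_fixingSubgroup]
    have e3 := Subgroup.index_mul_card K'.fixingSubgroup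
    rw [IsGalois.card_aut_eq_finrank, ← e1, e2] at e3
    exact Nat.eq_of_mul_eq_mul_right Nat.card_pos e3
  have h3 : (MulAction.orbit Gal(L/K) z).ncard = (cj K z).card := by
    rw [← Set.ncard_coe_finset]
    congr 1
    ext y
    rw [Finset.mem_coe, mem_cj, MulAction.mem_orbit_iff]
    rfl
  have h4 : (MulAction.orbit K'.fixingSubgroup z).ncard = (cj K' z).card := by
    rw [← Set.ncard_coe_finset]
    congr 1
    ext y
    rw [Finset.mem_coe, mem_cj, MulAction.mem_orbit_iff]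
    constructor
    · rintro ⟨g, rfl⟩
      exact ⟨IntermediateField.fixingSubgroupEquiv K' g, rfl⟩
    · rintro ⟨g, rfl⟩
      exact ⟨(IntermediateField.fixingSubgroupEquiv K').symm g, rfl⟩
  rw [h2, h3, h4] at h1
  exact h1

/-- **the bound at a tamely ramified prime** -/
theorem at_prime3 [DecidableEq L] [IsGalois K L] (nrm : S_NRM) (con : S_CON) (orb : S_ORB)
    (hB : Bds F d A a) (hd : 2 ≤ d)
    (hF : ∀ i, (F i).IsHomogeneous d)
    (hc : ∀ m, c + d ≤ m → ∀ p : MvPolynomial (Fin (1 + 1)) K, p.IsHomogeneous m →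
      p ∈ Ideal.span (Set.range F)) {m B : ℕ} (hm : 1 ≤ m)
    (hcon : ∀ σ : Gal(L/K), (Set.range fun g : Gal(L/K) => g * σ ^ m * g⁻¹).ncard ≤ B)
    (hG : GoodK (mi v₀) F d) {p : ℕ} (hp : p.Prime) (hpP : (p : 𝓞 K) ∈ mi v₀)
    (hpD : ¬ p ∣ finrank K L) {N₁ N C₃ : ℕ} (hN₁ : N₁ = (mi v₀).absNorm)
    (hN₁16 : 16 ≤ N₁) (hBN : B ≤ N₁) (hN : N = N₁ ^ (2 * m))
    (hκ : 128 * (B * finrank ℚ K) ≤ N)
    (hEN : 5 * (hC A a * (c + d : ℕ)) + 2 ≤ N)
    (hC₃ : 4 * (B * finrank ℚ K : ℕ) * ((2 * m : ℕ) * (14 + 24 * (hC A a * (c + d : ℕ)))) < C₃)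
    (hC₃N : 32 * C₃ ^ 2 ≤ N)
    {x : Fin (1 + 1) → L} (hx : x ≠ 0) (hw : Wnd F x)
    (hpos : 0 < canH F d x) {C₆ : ℕ} (hC₆ : C₆ = 4 * d * (32 * C₃ + 1))
    (hD : N ^ (3 * C₆ + 31) ≤ (cj K (ax F x 0)).card) :
    1 < (N : ℝ) ^ (C₆ + 10) * canH F d x := by
  have hP0 := H420R3.mi_ne_bot v₀
  have hN₁N : N₁ ≤ N := hN ▸ Nat.le_self_pow (by omega) _
  have hN16 : 16 ≤ N := hN₁16.trans hN₁N
  obtain ⟨K', hK', v', τ, hv', hnorm, hcomm, hfrob⟩ := exists_field (L := L) nrm con hP0 hcon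
  have hP0' := H420R3.mi_ne_bot v'
  have hB1 : 1 ≤ B := le_trans finrank_pos hK'
  have hpN₁ : p ≤ N₁ := hN₁ ▸ prime_le_absNorm hP0 hp hpP
  have hTP : ∀ w ∈ TP L (mi v'), w ∈ TP L (mi v₀) := by
    intro w hw
    have hlo := H420R3.liesOver_of_mem hP0' hw
    rw [mem_TP hP0]
    refine ⟨inferInstance, ⟨?_⟩⟩
    rw [← hv', hlo.over, Ideal.under_under]
  obtain ⟨e, he⟩ : ∃ e, e = B * (p ^ 1 * N₁ ^ m) := ⟨_, rfl⟩
  have he1 : 1 ≤ e := by
    rw [he]
    exact Nat.mul_pos hB1 (Nat.mul_pos (pow_pos hp.pos _) (pow_pos (by omega) _))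
  have heN : e ≤ N ^ 2 := by
    rw [he, hN, pow_one]
    calc B * (p * N₁ ^ m) ≤ N₁ * (N₁ * N₁ ^ m) :=
          Nat.mul_le_mul hBN (Nat.mul_le_mul_right _ hpN₁)
      _ = N₁ ^ (m + 2) := by ring
      _ ≤ N₁ ^ (2 * m * 2) := Nat.pow_le_pow_right (by omega) (by omega)
      _ = (N₁ ^ (2 * m)) ^ 2 := by rw [pow_mul]
  have hram : ∀ w ∈ TP L (mi v'), (mi w).ramificationIdx (𝓞 K') ≤ e := by
    intro w hw
    have hlo := H420R3.liesOver_of_mem hP0' hw
    have hlo0 := H420R3.liesOver_of_mem hP0 (hTP w hw)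
    have h1 := ram_bound (E := L) hP0 m B 1 p hm hp hpP (fun σ 𝔔 _ _ _ => hcon σ)
      (𝔓 := mi w) inferInstance hlo0.over.symm (by
      rw [pow_one]
      exact fun h => hpD (h.trans (ram_dvd hP0 _ hlo0.over.symm)))
    rw [← hN₁, ← he] at h1
    refine le_trans (Nat.le_of_dvd (H420R3.ramIdx_pos (K := K) w) ?_) h1
    exact Ideal.ramificationIdx_above_dvd (mi v') (mi w)
  have hcard : N ^ (3 * C₆ + 30) ≤ (cj K' (ax (bc K' F) x 0)).card := by
    rw [ax_bc]
    have h1 := card_cj_le orb K' (ax F x 0)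
    have h2 : N ^ (3 * C₆ + 30) * N ≤ N * (cj K' (ax F x 0)).card := by
      rw [← pow_succ]
      exact hD.trans (h1.trans (Nat.mul_le_mul_right _ (hK'.trans (hBN.trans hN₁N))))
    rw [mul_comm] at h2
    exact Nat.le_of_mul_le_mul_left h2 (by omega)
  have hfin : finrank ℚ K' ≤ B * finrank ℚ K := by
    rw [← finrank_mul_finrank ℚ K K', mul_comm]
    exact Nat.mul_le_mul_right _ hK'
  have hE : 0 ≤ hC A a * ((c + d : ℕ) : ℝ) := mul_nonneg hB.hC_nonneg (Nat.cast_nonneg _)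
  have key := core2 (K := K') (L := L) (F := bc K' F) (c := c) (v₀ := v') (σ := τ ^ 6)
    (N₁ := N₁) (m := 2 * m) (N := N) (C₃ := C₃) (e := e) (C₆ := C₆) (x := x)
    (bds_bc hB) hd (hom_bc hF) (fun m hm p hp => span_bc hc m hm p hp)
    (fun g => ((show Commute g τ from hcomm g).pow_right 6).eq)
    (fun w hw => gr_bc (hG.gr hP0 (by omega) (hTP w hw))) (by rw [hnorm, hN₁]) hN₁16 (by omega)
    hN (le_trans (Nat.mul_le_mul_left _ hfin) hκ) hEN
    (lt_of_le_of_lt (by
      have h1 : (finrank ℚ K' : ℝ) ≤ (B * finrank ℚ K : ℕ) := by exact_mod_cast hfin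
      gcongr) hC₃) hC₃N he1 heN
    (fun w hw => by
      have h1 := (hfrob w hw).pow 6
      have h2 : ((mi v₀).absNorm ^ m) ^ 6 = N ^ 3 := by
        rw [← hN₁, hN, ← pow_mul, ← pow_mul]
        congr 1
        ring
      rw [h2] at h1
      have h3 := fr_of (L := L) hP0' hw h1 he1 (by
        refine hram _ ?_
        exact hw)
      refine ⟨fun z hz => ?_, fun z hz => ?_⟩
      · have h4 := h3.fr z hz
        rw [mul_one_div] at h4
        exact h4
      · have h4 := h3.sm z hz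
        rw [mul_one_div] at h4
        exact h4)
    hx (wnd_bc hw) (by rw [canH_bc]; exact hpos) hC₆ hcard
  rw [canH_bc] at key
  exact key

end

end Pool.Agent.NH29.AC
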