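import Mathlib
import Pool.Agent.NH29.AC.Core3

/-!
Project AC: the lower bound for the points of Galois extensions in which the `m`-th powers have at
most `B` conjugates.
-/

set_option autoImplicit false
set_option linter.unusedSectionVars false

namespace Pool.Agent.NH29.AC

open NumberField Module Filter Topology
open Pool.Agent.W238.Leh
open Pool.Agent.H627.LP hiding det_ineq det_ineq' local_gain
open Pool.Agent.H627.LR (GR GoodK IC transfer_scale)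
open Pool.Agent.H420R3 (mi nv TP ew mem_TP)
open Pool.Agent.R829.BG hiding two_gain two_ineq classes_rel step_zero step_last core step_of
  exists_orb
open Pool.Agent.NH29.AB

noncomputable section

variable {K : Type} [Field K] [NumberField K]

/-- the primes which divide the degree -/
theorem not_dvd3 {L : Type} [Field L] [NumberField L] [Algebra K L] [DecidableEq L] [IsGalois K L]
    (grp : S_GRP) {m B p : ℕ}
    (hcon : ∀ σ : Gal(L/K), (Set.range fun g : Gal(L/K) => g * σ ^ m * g⁻¹).ncard ≤ B) {z : L}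
    (hfaith : ∀ σ : Gal(L/K), (∀ y ∈ cj K z, σ y = y) → σ = 1) (hp : p.Prime) (hpm : ¬ p ∣ m)
    (hBp : B < p) (hpz : ¬ p ∣ (cj K z).card) : ¬ p ∣ finrank K L := by
  classical
  letI : MulAction Gal(L/K) {y // y ∈ cj K z} := MulAction.compHom _ (cjPerm z)
  have hsm : ∀ (g : Gal(L/K)) (y : {y // y ∈ cj K z}), ((g • y : {y // y ∈ cj K z}) : L) = g y.1 :=
    fun g y => rfl
  haveI : MulAction.IsPretransitive Gal(L/K) {y // y ∈ cj K z} := by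
    refine ⟨fun x y => ?_⟩
    obtain ⟨g₁, h1⟩ := mem_cj.mp x.2
    obtain ⟨g₂, h2⟩ := mem_cj.mp y.2
    refine ⟨g₂ * g₁⁻¹, Subtype.ext ?_⟩
    rw [hsm, ← h1, ← AlgEquiv.mul_apply, inv_mul_cancel_right, h2]
  haveI : FaithfulSMul Gal(L/K) {y // y ∈ cj K z} := by
    refine ⟨fun {σ τ} h => ?_⟩
    have h1 : τ⁻¹ * σ = 1 := by
      apply hfaith
      intro y hy
      have h2 := congrArg Subtype.val (h ⟨y, hy⟩)
      rw [hsm, hsm] at h2
      have h2' : σ y = τ y := h2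
      rw [AlgEquiv.mul_apply, h2', ← AlgEquiv.mul_apply, inv_mul_cancel]
      rfl
    exact (inv_mul_eq_one.1 h1).symm
  have h3 := grp Gal(L/K) {y // y ∈ cj K z} m B p hcon hp hpm hBp (by
    rwa [Nat.card_eq_fintype_card, Fintype.card_coe])
  rwa [IsGalois.card_aut_eq_finrank] at h3

/-- restriction -/
theorem con_restr {L : Type} [Field L] [NumberField L] [Algebra K L] [IsGalois K L]
    (E : IntermediateField K L) [IsGalois K E] {m B : ℕ}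
    (hcon : ∀ σ : Gal(L/K), (Set.range fun g : Gal(L/K) => g * σ ^ m * g⁻¹).ncard ≤ B)
    (σ : Gal(E/K)) : (Set.range fun g : Gal(E/K) => g * σ ^ m * g⁻¹).ncard ≤ B := by
  classical
  obtain ⟨σ', rfl⟩ := AlgEquiv.restrictNormalHom_surjective (F := K) (K₁ := E) L σ
  have h1 : (Set.range fun g : Gal(E/K) => g * (AlgEquiv.restrictNormalHom E σ') ^ m * g⁻¹) ⊆
      (AlgEquiv.restrictNormalHom E : Gal(L/K) →* Gal(E/K)) ''
        (Set.range fun g : Gal(L/K) => g * σ' ^ m * g⁻¹) := by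
    rintro _ ⟨g, rfl⟩
    obtain ⟨g', rfl⟩ := AlgEquiv.restrictNormalHom_surjective (F := K) (K₁ := E) L g
    refine ⟨_, ⟨g', rfl⟩, ?_⟩
    simp only [map_mul, map_pow, map_inv]
  exact (Set.ncard_le_ncard h1 (Set.toFinite _)).trans
    ((Set.ncard_image_le (Set.toFinite _)).trans (hcon σ'))

/-- **the theorem** -/
theorem main3 (nrm : S_NRM) (con : S_CON) (orb : S_ORB) (grp : S_GRP) {d : ℕ} (hd : 2 ≤ d) (F : Fin (1 + 1) → MvPolynomial (Fin (1 + 1)) K)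
    (hF : ∀ i, (F i).IsHomogeneous d)
    (hmor : ∀ z : Fin (1 + 1) → AlgebraicClosure K,
      (∀ i, MvPolynomial.aeval z (F i) = 0) → z = 0) {m B : ℕ} (hm : 1 ≤ m) (hB1 : 1 ≤ B) :
    ∃ C : ℕ, 0 < C ∧ ∀ (L : Type) [Field L] [NumberField L] [Algebra K L] [IsGalois K L],
      (∀ σ : Gal(L/K), (Set.range fun g : Gal(L/K) => g * σ ^ m * g⁻¹).ncard ≤ B) → ∀ x : Fin (1 + 1) → L, x ≠ 0 → Wnd F x →
      ∃ h : ℝ, Tendsto (fun n : ℕ => Height.logHeight ((act F)^[n] x) /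
          ((finrank ℚ L : ℝ) * (d : ℝ) ^ n)) atTop (𝓝 h) ∧
        1 / ((C : ℝ) * (1 + Real.log (finrank K (fod K x))) ^ C) ≤ h := by
  classical
  obtain ⟨b, B₀, H, hb, hB₀, hH, hhom, hint, hmor', hgood⟩ := exists_model' hF hmor
  obtain ⟨A, a, hBd, C₂, hC₂, hconcl⟩ := final_int (ε := 1) (by omega) hhom hint hmor' one_pos
  obtain ⟨c, hc⟩ := exists_mem_span hmor'
  obtain ⟨E, hE⟩ : ∃ E, E = hC A a * ((c + d : ℕ) : ℝ) := ⟨_, rfl⟩
  obtain ⟨κ₀, hκ₀⟩ : ∃ κ₀, κ₀ = finrank ℚ K := ⟨_, rfl⟩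
  have hκ1 : 1 ≤ κ₀ := hκ₀ ▸ finrank_pos
  obtain ⟨C₃, hC₃⟩ : ∃ C₃, C₃ = ⌈4 * ((B * κ₀ : ℕ) : ℝ) * ((2 * m : ℕ) * (14 + 24 * E))⌉₊ + 1 := ⟨_, rfl⟩
  obtain ⟨C₆, hC₆⟩ : ∃ C₆, C₆ = 4 * d * (32 * C₃ + 1) := ⟨_, rfl⟩
  obtain ⟨N₀, hN₀⟩ : ∃ N₀, N₀ = 16 + 128 * (B * κ₀) + ⌈5 * E + 2⌉₊ + 32 * C₃ ^ 2 + B₀ + B := ⟨_, rfl⟩
  obtain ⟨C₁, hC₁⟩ : ∃ C₁, C₁ = (4 * N₀ + 49) * m := ⟨_, rfl⟩
  obtain ⟨D₀, hD₀⟩ := exists_D0 C₁ (4 * (κ₀ * (2 * m)) * (3 * C₆ + 31))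
  obtain ⟨m₂, hm₂⟩ : ∃ m₂, m₂ = 4 * (κ₀ * (2 * m)) * (C₆ + 10) := ⟨_, rfl⟩
  obtain ⟨C₇, hC₇⟩ : ∃ C₇, C₇ = ⌈Real.exp (C₂ * (D₀ : ℝ) ^ (((1 : ℕ) : ℝ) + 1))⌉₊ := ⟨_, rfl⟩
  refine ⟨C₁ ^ m₂ + m₂ + C₇ + 1, by omega, ?_⟩
  intro L _ _ _ _ hcen x hx hw
  rw [hH] at hBd
  obtain ⟨hw', hlim⟩ := transfer_scale hb hF hd hBd hx
  refine ⟨_, hlim, ?_⟩
  rw [← hH] at hBd ⊢
  replace hw' := hw' hw
  rw [← hH] at hw'
  obtain ⟨z, hz⟩ : ∃ z, z = x 0 / x 1 := ⟨_, rfl⟩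
  obtain ⟨D, hD⟩ : ∃ D, D = (cj K z).card := ⟨_, rfl⟩
  have hD' : finrank K (fod K x) = D := by
    rw [fod_eq, ← hz, ← card_cj_eq, hD]
  have hD1 : 1 ≤ D := by
    rw [hD]
    exact Finset.card_pos.mpr ⟨z, self_mem_cj z⟩
  rw [hD']
  -- the lower bound in the field of definition
  obtain ⟨x₀, b₀, hb₀, hx₀, hxx₀, _⟩ := descend (IntermediateField.adjoin K {z}) hx
    (by rw [← hz]; exact IntermediateField.mem_adjoin_simple_self K z)
  have hcan₀ : canH H d x₀ = canH H d x :=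
    canH_descend hhom (IntermediateField.adjoin K {z}).val hb₀ hxx₀
  have hlow := (hconcl (IntermediateField.adjoin K {z})).2 x₀ hx₀
    (wnd_descend hhom (IntermediateField.adjoin K {z}).val hb₀ hxx₀ hw')
  rw [hcan₀, ← card_cj_eq, ← hD] at hlow
  have hpos : 0 < canH H d x := lt_of_lt_of_le (Real.exp_pos _) hlow
  -- the closure
  obtain ⟨E', hE'⟩ : ∃ E', E' = IntermediateField.fixedField (fixN K z) := ⟨_, rfl⟩
  have hzE : x 0 / x 1 ∈ IntermediateField.fixedField (fixN K z) := by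
    rw [← hz]
    exact mem_fixed z (self_mem_cj z)
  obtain ⟨x', b', hb', hx', hxx', hax⟩ := descend (IntermediateField.fixedField (fixN K z)) hx hzE
  have hcan' : canH H d x' = canH H d x :=
    canH_descend hhom (IntermediateField.fixedField (fixN K z)).val hb' hxx'
  have hw'' : Wnd H x' :=
    wnd_descend hhom (IntermediateField.fixedField (fixN K z)).val hb' hxx' hw'
  have hax' : ax H x' 0 = ⟨z, mem_fixed z (self_mem_cj z)⟩ := by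
    change x' 0 / x' 1 = _
    rw [hax]
    apply Subtype.ext
    exact hz.symm
  have hDax : (cj K (ax H x' 0)).card = D := by
    rw [hax', card_cj_restr, hD]
  obtain ⟨ℓ, hℓ⟩ : ∃ ℓ, ℓ = 1 + Real.log D := ⟨_, rfl⟩
  have hℓ1 : 1 ≤ ℓ := by
    have := Real.log_natCast_nonneg D
    linarith
  obtain ⟨p, hp, hNp, hpD, hpC₀⟩ := exists_prime N₀ (m * D) (Nat.mul_pos hm hD1)
  have hm0 : (1 : ℝ) ≤ m := by exact_mod_cast hm
  have hD0 : (1 : ℝ) ≤ D := by exact_mod_cast hD1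
  have hpC : (p : ℝ) ≤ ((C₁ : ℝ) * ℓ) ^ 4 := by
    refine hpC₀.trans ?_
    have h1 : 1 + Real.log ((m * D : ℕ) : ℝ) ≤ m * ℓ := by
      push_cast
      rw [Real.log_mul (by linarith) (by linarith), hℓ]
      have h2 := Real.log_le_sub_one_of_pos (show (0 : ℝ) < m by linarith)
      have h3 := Real.log_nonneg hD0
      nlinarith
    have h4 : 0 ≤ 1 + Real.log ((m * D : ℕ) : ℝ) := by
      have := Real.log_natCast_nonneg (m * D)
      linarith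
    apply pow_le_pow_left₀ (by positivity)
    rw [hC₁]
    push_cast at h1 ⊢
    have h5 : (0 : ℝ) ≤ 4 * (N₀ : ℝ) + 49 := by positivity
    calc (4 * (N₀ : ℝ) + 49) * (1 + Real.log (m * D)) ≤ (4 * (N₀ : ℝ) + 49) * (m * ℓ) :=
          mul_le_mul_of_nonneg_left h1 h5
      _ = _ := by ring
  rw [← hℓ]
  have hpm : ¬ p ∣ m := fun h => hpD (h.mul_right D)
  have hpz : ¬ p ∣ D := fun h => hpD (h.mul_left m)
  have hpE : ¬ p ∣ finrank K (IntermediateField.fixedField (fixN K z)) := by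
    refine not_dvd3 (z := (⟨z, mem_fixed z (self_mem_cj z)⟩ :
      IntermediateField.fixedField (fixN K z))) grp (con_restr _ hcen) (faith_restr z) hp hpm
      (by omega) ?_
    rw [card_cj_restr, ← hD]
    exact hpz
  -- a prime over `p`
  have hspan : Ideal.span {(p : 𝓞 K)} ≠ ⊤ := by
    intro h
    have h1 : (Ideal.span {(p : 𝓞 K)}).absNorm = 1 := by rw [h, Ideal.absNorm_top]
    have h3 : (Ideal.span {(p : 𝓞 K)}).absNorm = p ^ finrank ℚ K := by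
      rw [Ideal.absNorm_span_singleton]
      have h4 : (p : 𝓞 K) = algebraMap ℤ (𝓞 K) p := by simp
      rw [h4, Algebra.norm_algebraMap, RingOfIntegers.rank]
      simp
    rw [h3, ← hκ₀] at h1
    have := Nat.one_lt_pow (n := κ₀) (by omega) hp.one_lt
    omega
  obtain ⟨P, hPm, hPle⟩ := Ideal.exists_le_maximal _ hspan
  have hpP : (p : 𝓞 K) ∈ P := hPle (Ideal.mem_span_singleton_self _)
  have hP0 : P ≠ ⊥ := by
    rintro rfl
    have h1 : (p : 𝓞 K) = 0 := hpP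
    have h2 : p ≠ 0 := hp.ne_zero
    exact h2 (by exact_mod_cast h1)
  let u : IsDedekindDomain.HeightOneSpectrum (𝓞 K) := ⟨P, hPm.isPrime, hP0⟩
  obtain ⟨v₀, hv₀⟩ : ∃ v₀ : FinitePlace K, v₀ = FinitePlace.mk u := ⟨_, rfl⟩
  have hmi : mi v₀ = P := by
    unfold mi
    rw [hv₀, FinitePlace.maximalIdeal_mk]
  rw [← hmi] at hpP
  obtain ⟨N₁, hN₁⟩ : ∃ N₁, N₁ = (mi v₀).absNorm := ⟨_, rfl⟩
  obtain ⟨N, hN⟩ : ∃ N, N = N₁ ^ (2 * m) := ⟨_, rfl⟩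
  have hpN₁ : p ≤ N₁ := hN₁ ▸ prime_le_absNorm (H420R3.mi_ne_bot v₀) hp hpP
  have hN₁N : N₁ ≤ N := hN ▸ Nat.le_self_pow (by omega) _
  have hNp' : N ≤ p ^ (κ₀ * (2 * m)) := by
    rw [hN, pow_mul p κ₀ (2 * m)]
    apply Nat.pow_le_pow_left
    rw [hN₁, hκ₀]
    exact absNorm_le_pow hp hpP
  have hN₀N : N₀ ≤ N := by omega
  have hNℓ : (N : ℝ) ≤ ((C₁ : ℝ) * ℓ) ^ (4 * (κ₀ * (2 * m))) := by
    calc (N : ℝ) ≤ ((p ^ (κ₀ * (2 * m)) : ℕ) : ℝ) := by exact_mod_cast hNp'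
      _ = (p : ℝ) ^ (κ₀ * (2 * m)) := by push_cast; rfl
      _ ≤ (((C₁ : ℝ) * ℓ) ^ 4) ^ (κ₀ * (2 * m)) := pow_le_pow_left₀ (Nat.cast_nonneg _) hpC _
      _ = _ := by rw [← pow_mul]
  have hC0 : (0 : ℝ) < ((C₁ ^ m₂ + m₂ + C₇ + 1 : ℕ) : ℝ) := by
    have : 0 < C₁ ^ m₂ + m₂ + C₇ + 1 := by omega
    exact_mod_cast this
  have hℓC : 1 ≤ ℓ ^ (C₁ ^ m₂ + m₂ + C₇ + 1) := one_le_pow₀ hℓ1
  rw [div_le_iff₀ (by positivity)]
  by_cases hbig : N ^ (3 * C₆ + 31) ≤ D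
  · have hlarge := at_prime3 (v₀ := v₀) (C₃ := C₃) (c := c) (m := m) (B := B)
      (L := IntermediateField.fixedField (fixN K z)) nrm con orb hBd hd hhom
      (fun m hm q hq => hc m (by omega) q hq) hm (con_restr _ hcen)
      (hgood _ (fun hmem => by
        have h1 := natCast_mem (P := mi v₀) hp hpP hmem
        have := Nat.le_of_dvd hB₀ h1
        omega)) hp hpP hpE hN₁ (by omega) (by omega) hN (by rw [← hκ₀]; omega)
      (by
        rw [← hE]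
        have h1 := Nat.le_ceil (5 * E + 2)
        have h2 : ((⌈5 * E + 2⌉₊ : ℕ) : ℝ) ≤ N := by
          have : ⌈5 * E + 2⌉₊ ≤ N := by omega
          exact_mod_cast this
        linarith)
      (by
        rw [← hE, ← hκ₀, hC₃, Nat.cast_add, Nat.cast_one]
        have h1 := Nat.le_ceil (4 * ((B * κ₀ : ℕ) : ℝ) * ((2 * m : ℕ) * (14 + 24 * E)))
        linarith)
      (by omega) hx' hw'' (by rw [hcan']; exact hpos) hC₆ (by rw [hDax]; exact hbig)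
    rw [hcan'] at hlarge
    have h1 : (N : ℝ) ^ (C₆ + 10) ≤ (C₁ : ℝ) ^ m₂ * ℓ ^ m₂ := by
      calc (N : ℝ) ^ (C₆ + 10) ≤ (((C₁ : ℝ) * ℓ) ^ (4 * (κ₀ * (2 * m)))) ^ (C₆ + 10) :=
            pow_le_pow_left₀ (Nat.cast_nonneg _) hNℓ _
        _ = _ := by rw [← pow_mul, ← hm₂, mul_pow]
    have h2 : (C₁ : ℝ) ^ m₂ * ℓ ^ m₂ ≤
        ((C₁ ^ m₂ + m₂ + C₇ + 1 : ℕ) : ℝ) * ℓ ^ (C₁ ^ m₂ + m₂ + C₇ + 1) := by
      apply mul_le_mul _ (pow_le_pow_right₀ hℓ1 (by omega)) (by positivity) hC0.le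
      have : C₁ ^ m₂ ≤ C₁ ^ m₂ + m₂ + C₇ + 1 := by omega
      exact_mod_cast this
    have h3 := mul_le_mul_of_nonneg_right (h1.trans h2) hpos.le
    rw [mul_comm (canH H d x)]
    linarith
  · push Not at hbig
    have hDD₀ : D ≤ D₀ := by
      by_contra h
      push Not at h
      have h1 := hD₀ D h.le
      rw [← hℓ] at h1
      have h2 : (N : ℝ) ^ (3 * C₆ + 31) ≤
          ((C₁ : ℝ) * ℓ) ^ (4 * (κ₀ * (2 * m)) * (3 * C₆ + 31)) := by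
        rw [pow_mul]
        exact pow_le_pow_left₀ (Nat.cast_nonneg _) hNℓ _
      have h3 : (D : ℝ) < (N : ℝ) ^ (3 * C₆ + 31) := by exact_mod_cast hbig
      linarith
    have h1 : (D : ℝ) ^ (((1 : ℕ) : ℝ) + 1) ≤ (D₀ : ℝ) ^ (((1 : ℕ) : ℝ) + 1) :=
      Real.rpow_le_rpow (Nat.cast_nonneg _) (by exact_mod_cast hDD₀) (by positivity)
    have h2 : Real.exp (-(C₂ * (D₀ : ℝ) ^ (((1 : ℕ) : ℝ) + 1))) ≤ canH H d x := by
      refine le_trans ?_ hlow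
      rw [Real.exp_le_exp, neg_le_neg_iff]
      exact mul_le_mul_of_nonneg_left h1 hC₂.le
    rw [Real.exp_neg] at h2
    have h3 : Real.exp (C₂ * (D₀ : ℝ) ^ (((1 : ℕ) : ℝ) + 1)) ≤
        ((C₁ ^ m₂ + m₂ + C₇ + 1 : ℕ) : ℝ) := by
      refine (Nat.le_ceil _).trans ?_
      rw [← hC₇]
      have : C₇ ≤ C₁ ^ m₂ + m₂ + C₇ + 1 := by omega
      exact_mod_cast this
    have h4 : 1 ≤ canH H d x * Real.exp (C₂ * (D₀ : ℝ) ^ (((1 : ℕ) : ℝ) + 1)) := by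
      rwa [← inv_le_iff_one_le_mul₀ (Real.exp_pos _)]
    have h5 : canH H d x * Real.exp (C₂ * (D₀ : ℝ) ^ (((1 : ℕ) : ℝ) + 1)) ≤
        canH H d x * (((C₁ ^ m₂ + m₂ + C₇ + 1 : ℕ) : ℝ) * ℓ ^ (C₁ ^ m₂ + m₂ + C₇ + 1)) := by
      apply mul_le_mul_of_nonneg_left _ hpos.le
      refine h3.trans ?_
      exact le_mul_of_one_le_right hC0.le hℓC
    linarith

end

end Pool.Agent.NH29.AC
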