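import Mathlib

/-!
# Project AC (MP_2194ec_nt): statements of the light jobs, part 2
-/

set_option autoImplicit false

namespace Pool.Agent.NH29.AC

open NumberField Module Nat

/-- AC-COR: powers and conjugates, if a subgroup of index at most `m` is abelian modulo a subgroup
with trivial core. -/
def S_COR : Prop :=
  ∀ (G : Type) [Group G] [Finite G] (H N : Subgroup G) (m : ℕ), H.index ≤ m →
    (∀ g ∈ H, ∀ h ∈ H, g * h * g⁻¹ * h⁻¹ ∈ N) → N.normalCore = ⊥ →
    ∀ σ : G, (Set.range fun g : G => g * σ ^ (m !) * g⁻¹).ncard ≤ m !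

/-- AC-CLO: the Galois closure of an abelian extension of an extension of degree at most `m`. -/
def S_CLO : Prop :=
  ∀ (K K' L : Type) [Field K] [NumberField K] [Field K'] [NumberField K'] [Field L]
    [NumberField L] [Algebra K K'] [Algebra K' L] [Algebra K L] [IsScalarTower K K' L]
    [IsGalois K' L] (m : ℕ), finrank K K' ≤ m → (∀ g h : Gal(L/K'), g * h = h * g) →
    ∃ (M : Type) (_ : Field M) (_ : NumberField M) (_ : Algebra K M) (_ : Algebra L M)
      (_ : IsScalarTower K L M) (_ : IsGalois K M) (H N : Subgroup Gal(M/K)), H.index ≤ m ∧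
      (∀ g ∈ H, ∀ h ∈ H, g * h * g⁻¹ * h⁻¹ ∈ N) ∧ N.normalCore = ⊥

end Pool.Agent.NH29.AC
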