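import Mathlib
import Pool.Agent.NH29.AC.Fin
import Pool.Agent.Helper259.HtExt

/-!
Project AC: extension of the field.
-/

set_option autoImplicit false
set_option linter.unusedSectionVars false

namespace Pool.Agent.NH29.AC

open NumberField Module Filter Topology
open Pool.Agent.W238.Leh
open Pool.Agent.H627.LP hiding det_ineq det_ineq' local_gain
open Pool.Agent.NH29.AB

noncomputable section

variable {K L M : Type} [Field K] [NumberField K] [Field L] [NumberField L] [Field M]
  [NumberField M] [Algebra K L] [Algebra L M] [Algebra K M] [IsScalarTower K L M]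
variable {F : Fin (1 + 1) → MvPolynomial (Fin (1 + 1)) K}

/-- the point over the extension -/
def up (M : Type) [Field M] [Algebra L M] (x : Fin (1 + 1) → L) : Fin (1 + 1) → M :=
  fun i => algebraMap L M (x i)

lemma up_inj {x y : Fin (1 + 1) → L} (h : up M x = up M y) : x = y :=
  funext fun i => (algebraMap L M).injective (congrFun h i)

lemma up_ne {x : Fin (1 + 1) → L} (h : x ≠ 0) : up M x ≠ 0 := by
  intro h1
  exact h (up_inj (M := M) (h1.trans (funext fun i => (map_zero (algebraMap L M)).symm)))

lemma up_smul (c : L) (x : Fin (1 + 1) → L) : up M (c • x) = algebraMap L M c • up M x :=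
  funext fun i => map_mul (algebraMap L M) c (x i)

lemma act_up (x : Fin (1 + 1) → L) : act F (up M x) = up M (act F x) := by
  funext i
  unfold act up
  exact MvPolynomial.aeval_algebraMap_apply M x (F i)

lemma act_iter_up (x : Fin (1 + 1) → L) (n : ℕ) :
    (act F)^[n] (up M x) = up M ((act F)^[n] x) := by
  induction n with
  | zero => rfl
  | succ n ih => rw [Function.iterate_succ_apply', Function.iterate_succ_apply', ih, act_up]

lemma wnd_up {x : Fin (1 + 1) → L} (h : Wnd F x) : Wnd F (up M x) := by
  rintro ⟨m, n, hmn, c, hc, h1⟩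
  apply h
  refine ⟨m, n, hmn, ?_⟩
  rw [act_iter_up, act_iter_up] at h1
  by_cases h0 : (act F)^[m] x = 0
  · refine ⟨1, one_ne_zero, ?_⟩
    apply up_inj (M := M)
    rw [h1, up_smul, h0]
    have : up M (0 : Fin (1 + 1) → L) = 0 := funext fun i => map_zero (algebraMap L M)
    rw [this, smul_zero, smul_zero]
  · obtain ⟨j, hj⟩ := Function.ne_iff.1 h0
    have hj' : (act F)^[m] x j ≠ 0 := hj
    have h2 : algebraMap L M ((act F)^[n] x j / (act F)^[m] x j) = c := by
      have h3 : algebraMap L M ((act F)^[n] x j) = c * algebraMap L M ((act F)^[m] x j) :=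
        congrFun h1 j
      rw [map_div₀, h3, mul_div_cancel_right₀]
      exact fun h4 => hj' ((algebraMap L M).injective (h4.trans (map_zero _).symm))
    refine ⟨(act F)^[n] x j / (act F)^[m] x j, ?_, ?_⟩
    · intro h3
      rw [h3, map_zero] at h2
      exact hc h2.symm
    · apply up_inj (M := M)
      rw [h1, up_smul, h2]

lemma height_up {x : Fin (1 + 1) → L} {d n : ℕ} :
    Height.logHeight ((act F)^[n] (up M x)) / ((finrank ℚ M : ℝ) * (d : ℝ) ^ n) =
      Height.logHeight ((act F)^[n] x) / ((finrank ℚ L : ℝ) * (d : ℝ) ^ n) := by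
  have : Nonempty (Fin (1 + 1)) := ⟨0⟩
  have h1 : (0 : ℝ) < finrank L M := by exact_mod_cast (finrank_pos : 0 < finrank L M)
  have h2 : (finrank ℚ M : ℝ) = finrank ℚ L * finrank L M := by
    exact_mod_cast (finrank_mul_finrank ℚ L M).symm
  rw [act_iter_up]
  unfold up
  rw [Pool.Agent.Helper259.HtExt.logHeight_ext, h2, mul_assoc, mul_left_comm,
    mul_div_mul_left _ _ h1.ne']

lemma fod_up (x : Fin (1 + 1) → L) : finrank K (fod K (up M x)) = finrank K (fod K x) := by
  have h1 : fod K (up M x) = (fod K x).map (IsScalarTower.toAlgHom K L M) := by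
    unfold fod
    rw [IntermediateField.adjoin_map, ← Set.range_comp]
    congr 1
    apply congrArg Set.range
    funext ij
    exact (map_div₀ (algebraMap L M) _ _).symm
  rw [h1]
  exact (IntermediateField.equivMap (fod K x) (IsScalarTower.toAlgHom K L M)).toLinearEquiv.finrank_eq.symm

end

end Pool.Agent.NH29.AC
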