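import Mathlib
import Pool.Agent.NH29.AC.Tr
import Pool.Agent.NH29.AC.Stm2

/-!
Project AC: the two families of fields.
-/

set_option autoImplicit false
set_option linter.unusedSectionVars false

namespace Pool.Agent.NH29.AC

open NumberField Module Filter Topology
open Pool.Agent.W238.Leh
open Pool.Agent.H627.LP hiding det_ineq det_ineq' local_gain
open Pool.Agent.NH29.AB

noncomputable section

lemma mono_bound {a c : ℕ} (ha : 0 < a) (hac : a ≤ c) {t : ℝ} (ht : 0 ≤ t) :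
    1 / ((c : ℝ) * (1 + t) ^ c) ≤ 1 / ((a : ℝ) * (1 + t) ^ a) := by
  have h1 : (1 : ℝ) ≤ 1 + t := by linarith
  have h2 : (0 : ℝ) < a := by exact_mod_cast ha
  have h3 : (a : ℝ) ≤ c := by exact_mod_cast hac
  apply one_div_le_one_div_of_le
  · positivity
  · exact mul_le_mul h3 (pow_le_pow_right₀ h1 hac) (by positivity) (by positivity)

variable {K : Type} [Field K] [NumberField K]

/-- **the theorem** -/
theorem main4 (nrm : S_NRM) (con : S_CON) (orb : S_ORB) (grp : S_GRP) (clo : S_CLO) (cor : S_COR)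
    {d : ℕ} (hd : 2 ≤ d) (F : Fin (1 + 1) → MvPolynomial (Fin (1 + 1)) K)
    (hF : ∀ i, (F i).IsHomogeneous d)
    (hmor : ∀ z : Fin (1 + 1) → AlgebraicClosure K,
      (∀ i, MvPolynomial.aeval z (F i) = 0) → z = 0) {m : ℕ} (hm : 1 ≤ m) :
    ∃ C : ℕ, 0 < C ∧
      (∀ (L : Type) [Field L] [NumberField L] [Algebra K L] [IsGalois K L],
        (∀ σ : Gal(L/K), (Set.range fun g : Gal(L/K) => g * σ ^ m * g⁻¹).ncard ≤ m) →
        ∀ x : Fin (1 + 1) → L, x ≠ 0 → Wnd F x →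
        ∃ h : ℝ, Tendsto (fun n : ℕ => Height.logHeight ((act F)^[n] x) /
            ((finrank ℚ L : ℝ) * (d : ℝ) ^ n)) atTop (𝓝 h) ∧
          1 / ((C : ℝ) * (1 + Real.log (finrank K (fod K x))) ^ C) ≤ h) ∧
      (∀ (K' L : Type) [Field K'] [NumberField K'] [Field L] [NumberField L] [Algebra K K']
        [Algebra K' L] [Algebra K L] [IsScalarTower K K' L] [IsGalois K' L],
        finrank K K' ≤ m → (∀ g h : Gal(L/K'), g * h = h * g) →
        ∀ x : Fin (1 + 1) → L, x ≠ 0 → Wnd F x →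
        ∃ h : ℝ, Tendsto (fun n : ℕ => Height.logHeight ((act F)^[n] x) /
            ((finrank ℚ L : ℝ) * (d : ℝ) ^ n)) atTop (𝓝 h) ∧
          1 / ((C : ℝ) * (1 + Real.log (finrank K (fod K x))) ^ C) ≤ h) := by
  obtain ⟨C₁, hC1, h1⟩ := main3 nrm con orb grp hd F hF hmor hm hm
  have hf : 1 ≤ m.factorial := Nat.factorial_pos m
  obtain ⟨C₂, hC2, h2⟩ := main3 nrm con orb grp hd F hF hmor hf hf
  refine ⟨C₁ + C₂, by omega, ?_, ?_⟩
  · intro L _ _ _ _ hcon x hx hw
    obtain ⟨h, ht, hb⟩ := h1 L hcon x hx hw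
    exact ⟨h, ht, (mono_bound hC1 (by omega) (Real.log_natCast_nonneg _)).trans hb⟩
  · intro K' L _ _ _ _ _ _ _ _ _ hdeg hab x hx hw
    obtain ⟨M, i1, i2, i3, i4, i5, i6, H, N, hH, hHN, hN⟩ := clo K K' L m hdeg hab
    obtain ⟨h, ht, hb⟩ := h2 M (cor Gal(M/K) H N m hH hHN hN) (up M x) (up_ne hx) (wnd_up hw)
    refine ⟨h, ?_, ?_⟩
    · refine ht.congr fun n => ?_
      exact height_up
    · rw [fod_up] at hb
      exact (mono_bound hC2 (by omega) (Real.log_natCast_nonneg _)).trans hb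

end

end Pool.Agent.NH29.AC
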