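import Mathlib

/-!
# Project AC (MP_2194ec_nt): statements of the light jobs, part 3
-/

set_option autoImplicit false

namespace Pool.Agent.NH29.AC

open NumberField Module Nat

/-- AC-COR2: powers and conjugates. `H` has index at most `m`, it normalizes `N`, `N` has trivial
core, and for `σ ∈ H` the `m`-th power commutes modulo `N` with a subgroup of index at most `m` in
`H`. -/
def S_COR2 : Prop :=
  ∀ (G : Type) [Group G] [Finite G] (H N : Subgroup G) (m : ℕ), H.index ≤ m →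
    (∀ h ∈ H, ∀ n ∈ N, h * n * h⁻¹ ∈ N) →
    (∀ σ ∈ H, ∃ Z : Subgroup G, Z ≤ H ∧ Z.relIndex H ≤ m ∧
      ∀ g ∈ Z, g * σ ^ m * g⁻¹ * (σ ^ m)⁻¹ ∈ N) → N.normalCore = ⊥ →
    ∀ σ : G, (Set.range fun g : G => g * σ ^ (m ! * m) * g⁻¹).ncard ≤ m ! * m ^ m

/-- AC-CLO2: the Galois closure of a Galois extension of an extension of degree at most `m`. -/
def S_CLO2 : Prop :=
  ∀ (K K' L : Type) [Field K] [NumberField K] [Field K'] [NumberField K'] [Field L]
    [NumberField L] [Algebra K K'] [Algebra K' L] [Algebra K L] [IsScalarTower K K' L]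
    [IsGalois K' L] (m : ℕ), finrank K K' ≤ m →
    (∀ σ : Gal(L/K'), (Set.range fun g : Gal(L/K') => g * σ ^ m * g⁻¹).ncard ≤ m) →
    ∃ (M : Type) (_ : Field M) (_ : NumberField M) (_ : Algebra K M) (_ : Algebra L M)
      (_ : IsScalarTower K L M) (_ : IsGalois K M) (H N : Subgroup Gal(M/K)), H.index ≤ m ∧
      (∀ h ∈ H, ∀ n ∈ N, h * n * h⁻¹ ∈ N) ∧
      (∀ σ ∈ H, ∃ Z : Subgroup Gal(M/K), Z ≤ H ∧ Z.relIndex H ≤ m ∧
        ∀ g ∈ Z, g * σ ^ m * g⁻¹ * (σ ^ m)⁻¹ ∈ N) ∧ N.normalCore = ⊥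

end Pool.Agent.NH29.AC
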