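import Mathlib
import Pool.Agent.NH29.AC.Tr
import Pool.Agent.NH29.AC.Stm3

/-!
Project AC: Galois extensions of extensions of bounded degree.
-/

set_option autoImplicit false
set_option linter.unusedSectionVars false

namespace Pool.Agent.NH29.AC

open NumberField Module Filter Topology
open Pool.Agent.W238.Leh
open Pool.Agent.H627.LP hiding det_ineq det_ineq' local_gain
open Pool.Agent.NH29.AB

noncomputable section

variable {K : Type} [Field K] [NumberField K]

/-- **the theorem** -/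
theorem main5 (nrm : S_NRM) (con : S_CON) (orb : S_ORB) (grp : S_GRP) (clo : S_CLO2)
    (cor : S_COR2)
    {d : ℕ} (hd : 2 ≤ d) (F : Fin (1 + 1) → MvPolynomial (Fin (1 + 1)) K)
    (hF : ∀ i, (F i).IsHomogeneous d)
    (hmor : ∀ z : Fin (1 + 1) → AlgebraicClosure K,
      (∀ i, MvPolynomial.aeval z (F i) = 0) → z = 0) {m : ℕ} (hm : 1 ≤ m) :
    ∃ C : ℕ, 0 < C ∧
      ∀ (K' L : Type) [Field K'] [NumberField K'] [Field L] [NumberField L] [Algebra K K']
        [Algebra K' L] [Algebra K L] [IsScalarTower K K' L] [IsGalois K' L],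
        finrank K K' ≤ m →
        (∀ σ : Gal(L/K'), (Set.range fun g : Gal(L/K') => g * σ ^ m * g⁻¹).ncard ≤ m) →
        ∀ x : Fin (1 + 1) → L, x ≠ 0 → Wnd F x →
        ∃ h : ℝ, Tendsto (fun n : ℕ => Height.logHeight ((act F)^[n] x) /
            ((finrank ℚ L : ℝ) * (d : ℝ) ^ n)) atTop (𝓝 h) ∧
          1 / ((C : ℝ) * (1 + Real.log (finrank K (fod K x))) ^ C) ≤ h := by
  have hf : 1 ≤ m.factorial := Nat.factorial_pos m
  have hf1 : 1 ≤ m.factorial * m := Nat.mul_pos hf hm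
  have hf2 : 1 ≤ m.factorial * m ^ m := Nat.mul_pos hf (Nat.pow_pos hm)
  obtain ⟨C, hC, h2⟩ := main3 nrm con orb grp hd F hF hmor hf1 hf2
  refine ⟨C, hC, ?_⟩
  intro K' L _ _ _ _ _ _ _ _ _ hdeg hcj x hx hw
  obtain ⟨M, i1, i2, i3, i4, i5, i6, H, N, hH, hHN, hZ, hN⟩ := clo K K' L m hdeg hcj
  obtain ⟨h, ht, hb⟩ := h2 M (cor Gal(M/K) H N m hH hHN hZ hN) (up M x) (up_ne hx) (wnd_up hw)
  refine ⟨h, ?_, ?_⟩
  · refine ht.congr fun n => ?_
    exact height_up
  · rwa [fod_up] at hb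

end

end Pool.Agent.NH29.AC
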