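import Mathlib
import Pool.Agent.NH29.AC.Tr
import Pool.Agent.NH29.AC.Fin6
import Pool.Agent.NH29.AC.Stm4

/-!
Project AC: Galois extensions of extensions of bounded degree, uniformly.
-/

set_option autoImplicit false
set_option linter.unusedSectionVars false

namespace Pool.Agent.NH29.AC

open NumberField Module Filter Topology
open Pool.Agent.W238.Leh
open Pool.Agent.H627.LP hiding det_ineq det_ineq' local_gain
open Pool.Agent.NH29.AB

noncomputable section

variable {K : Type} [Field K] [NumberField K]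

/-- **the theorem** -/
theorem main7 (nrm : S_NRM) (con : S_CON) (orb : S_ORB) (grp : S_GRP) (clo : S_CLO3)
    (cor : S_COR3)
    {d : ℕ} (hd : 2 ≤ d) (F : Fin (1 + 1) → MvPolynomial (Fin (1 + 1)) K)
    (hF : ∀ i, (F i).IsHomogeneous d)
    (hmor : ∀ z : Fin (1 + 1) → AlgebraicClosure K,
      (∀ i, MvPolynomial.aeval z (F i) = 0) → z = 0) :
    ∃ C : ℕ, 0 < C ∧ ∀ r m B T : ℕ, 1 ≤ m → 1 ≤ B →
      T = C * r.factorial ^ 3 * m ^ 2 * B ^ r → ∃ C' : ℕ, 0 < C' ∧
      ∀ (L : Type) [Field L] [NumberField L] [Algebra K L] (K' : IntermediateField K L)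
        [IsGalois K' L],
        finrank K K' ≤ r →
        (∀ σ : Gal(L/K'), (Set.range fun g : Gal(L/K') => g * σ ^ m * g⁻¹).ncard ≤ B) →
        ∀ x : Fin (1 + 1) → L, x ≠ 0 → Wnd F x →
        ∃ h : ℝ, Tendsto (fun n : ℕ => Height.logHeight ((act F)^[n] x) /
            ((finrank ℚ L : ℝ) * (d : ℝ) ^ n)) atTop (𝓝 h) ∧
          1 / ((C' : ℝ) * (1 + Real.log (finrank K (fod K x))) ^ C') ≤ h ∧
          (((T : ℝ) * (1 + Real.log (finrank K (fod K x)))) ^ T ≤ finrank K (fod K x) →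
            1 / ((T : ℝ) * (1 + Real.log (finrank K (fod K x)))) ^ T ≤ h) := by
  obtain ⟨C, hC, h6⟩ := main6 nrm con orb grp hd F hF hmor
  refine ⟨C, hC, ?_⟩
  intro r m B T hm hB hT
  have hf : 1 ≤ r.factorial := Nat.factorial_pos r
  have hf1 : 1 ≤ r.factorial * m := Nat.mul_pos hf hm
  have hf2 : 1 ≤ r.factorial * B ^ r := Nat.mul_pos hf (Nat.pow_pos hB)
  obtain ⟨C', hC', h3⟩ := main3 nrm con orb grp hd F hF hmor hf1 hf2
  refine ⟨C', hC', ?_⟩
  intro L _ _ _ K' _ hdeg hcj x hx hw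
  obtain ⟨M, i1, i2, i3, i4, i5, i6, H, N, hH, hHN, hZ, hN⟩ := clo K K' L r m B hdeg hcj
  have hcor := cor Gal(M/K) H N r m B hH hB hHN hZ hN
  obtain ⟨h, ht, hb⟩ := h3 M hcor (up M x) (up_ne hx) (wnd_up hw)
  obtain ⟨h', ht', hb'⟩ := h6 _ _ hf1 hf2 M hcor (up M x) (up_ne hx) (wnd_up hw)
  obtain rfl : h' = h := tendsto_nhds_unique ht' ht
  rw [fod_up] at hb hb'
  refine ⟨h', ?_, hb, ?_⟩
  · refine ht.congr fun n => ?_
    exact height_up
  · obtain ⟨ℓ, hℓ⟩ : ∃ ℓ, ℓ = 1 + Real.log (finrank K (fod K x)) := ⟨_, rfl⟩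
    rw [← hℓ] at hb' ⊢
    have hℓ1 : 1 ≤ ℓ := by
      have := Real.log_natCast_nonneg (finrank K (fod K x))
      linarith
    obtain ⟨X, hX⟩ : ∃ X, X = (C : ℝ) * (r.factorial * m : ℕ) * (r.factorial * B ^ r : ℕ) * ℓ :=
      ⟨_, rfl⟩
    have he : C * (r.factorial * m) ^ 2 * (r.factorial * B ^ r) = T := by rw [hT]; ring
    rw [← hX, he] at hb'
    have hX1 : 1 ≤ X := by
      rw [hX]
      have h1 : (1 : ℝ) ≤ C := by exact_mod_cast hC
      have h2 : (1 : ℝ) ≤ (r.factorial * m : ℕ) := by exact_mod_cast hf1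
      have h3 : (1 : ℝ) ≤ (r.factorial * B ^ r : ℕ) := by exact_mod_cast hf2
      exact one_le_mul_of_one_le_of_one_le (one_le_mul_of_one_le_of_one_le
        (one_le_mul_of_one_le_of_one_le h1 h2) h3) hℓ1
    have hXT : X ≤ T * ℓ := by
      rw [hX]
      apply mul_le_mul_of_nonneg_right _ (by linarith)
      have h1 : C * (r.factorial * m) * (r.factorial * B ^ r) ≤ T := by
        rw [← he]
        apply Nat.mul_le_mul_right
        apply Nat.mul_le_mul_left
        exact Nat.le_self_pow (by norm_num) _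
      exact_mod_cast h1
    have hpw : X ^ T ≤ (T * ℓ) ^ T := pow_le_pow_left₀ (by linarith) hXT T
    intro hD
    have h1 := hb' (hpw.trans hD)
    have hXp : 0 < X ^ T := by positivity
    have hpos : 0 < h' := by
      by_contra hneg
      push Not at hneg
      have := mul_nonpos_of_nonpos_of_nonneg hneg hXp.le
      linarith
    have h2 : 0 < (T * ℓ) ^ T := lt_of_lt_of_le hXp hpw
    rw [div_le_iff₀ h2]
    exact h1.trans (mul_le_mul_of_nonneg_left hpw hpos.le)

end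

end Pool.Agent.NH29.AC
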