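import Mathlib
import Pool.Agent.NH29.AC.Fin6

/-!
Project AC: the lower bound for the points of Galois extensions in which the `m`-th powers have at
most `B` conjugates, uniformly in `m` and `B`.
-/

set_option autoImplicit false
set_option linter.unusedSectionVars false

namespace Pool.Agent.NH29.AC

open NumberField Module Filter Topology
open Pool.Agent.W238.Leh
open Pool.Agent.H627.LP hiding det_ineq det_ineq' local_gain
open Pool.Agent.H627.LR (GR GoodK IC transfer_scale)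
open Pool.Agent.H420R3 (mi nv TP ew mem_TP)
open Pool.Agent.R829.BG hiding two_gain two_ineq classes_rel step_zero step_last core step_of
  exists_orb
open Pool.Agent.NH29.AB

noncomputable section

variable {K : Type} [Field K] [NumberField K]

/-- the constant `N₀` -/
theorem small_N₀ (κ₀ e₀ B₀ : ℕ) {m B k₃ k₀ C₃ N₀ : ℕ} (hm : 1 ≤ m) (hB : 1 ≤ B)
    (hk₀ : k₀ = 16 + 128 * κ₀ + (5 * e₀ + 2) + 32 * k₃ ^ 2 + B₀ + 1)
    (hC₃ : C₃ = k₃ * (m * B))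
    (hN₀ : N₀ = 16 + 128 * (B * κ₀) + (5 * e₀ + 2) + 32 * C₃ ^ 2 + B₀ + B) :
    N₀ ≤ k₀ * (m * B) ^ 2 := by
  obtain ⟨s, hs⟩ : ∃ s, s = m * B := ⟨_, rfl⟩
  have hs1 : 1 ≤ s := hs ▸ Nat.mul_pos hm hB
  have hBs : B ≤ s := hs ▸ Nat.le_mul_of_pos_left B hm
  have hss : s ≤ s ^ 2 := by nlinarith
  rw [← hs] at hC₃ ⊢
  have hs2 : 1 ≤ s ^ 2 := Nat.pow_pos hs1
  have hB2 : B ≤ s ^ 2 := hBs.trans hss
  have h1 : 128 * (B * κ₀) ≤ 128 * κ₀ * s ^ 2 := by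
    calc 128 * (B * κ₀) = 128 * κ₀ * B := by ring
      _ ≤ _ := Nat.mul_le_mul_left _ hB2
  have h2 : 16 + (5 * e₀ + 2) + B₀ ≤ (16 + (5 * e₀ + 2) + B₀) * s ^ 2 :=
    Nat.le_mul_of_pos_right _ hs2
  have h3 : 32 * C₃ ^ 2 = 32 * k₃ ^ 2 * s ^ 2 := by rw [hC₃]; ring
  rw [hN₀, hk₀, h3]
  calc 16 + 128 * (B * κ₀) + (5 * e₀ + 2) + 32 * k₃ ^ 2 * s ^ 2 + B₀ + B
      = (16 + (5 * e₀ + 2) + B₀) + 128 * (B * κ₀) + 32 * k₃ ^ 2 * s ^ 2 + B := by ring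
    _ ≤ (16 + (5 * e₀ + 2) + B₀) * s ^ 2 + 128 * κ₀ * s ^ 2 + 32 * k₃ ^ 2 * s ^ 2 + s ^ 2 := by
        omega
    _ = _ := by ring

/-- **the theorem for points of degree prime to `p`** -/
theorem main8 (nrm : S_NRM) (con : S_CON) (orb : S_ORB) (grp : S_GRP) {d : ℕ} (hd : 2 ≤ d)
    (F : Fin (1 + 1) → MvPolynomial (Fin (1 + 1)) K) (hF : ∀ i, (F i).IsHomogeneous d)
    (hmor : ∀ z : Fin (1 + 1) → AlgebraicClosure K,
      (∀ i, MvPolynomial.aeval z (F i) = 0) → z = 0) :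
    ∃ C : ℕ, 0 < C ∧ ∀ m B : ℕ, 1 ≤ m → 1 ≤ B → ∀ p : ℕ, p.Prime → C * (m * B) ^ 2 < p →
      ∃ δ : ℝ, 0 < δ ∧
      ∀ (L : Type) [Field L] [NumberField L] [Algebra K L] [IsGalois K L],
      (∀ σ : Gal(L/K), (Set.range fun g : Gal(L/K) => g * σ ^ m * g⁻¹).ncard ≤ B) →
      ∀ x : Fin (1 + 1) → L, x ≠ 0 → Wnd F x → ¬ p ∣ finrank K (fod K x) →
      ∃ h : ℝ, Tendsto (fun n : ℕ => Height.logHeight ((act F)^[n] x) /
          ((finrank ℚ L : ℝ) * (d : ℝ) ^ n)) atTop (𝓝 h) ∧ δ ≤ h := by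
  classical
  obtain ⟨b, B₀, H, hb, hB₀, hH, hhom, hint, hmor', hgood⟩ := exists_model' hF hmor
  obtain ⟨A, a, hBd, C₂, hC₂, hconcl⟩ := final_int (ε := 1) (by omega) hhom hint hmor' one_pos
  obtain ⟨c, hc⟩ := exists_mem_span hmor'
  obtain ⟨E, hE⟩ : ∃ E, E = hC A a * ((c + d : ℕ) : ℝ) := ⟨_, rfl⟩
  obtain ⟨κ₀, hκ₀⟩ : ∃ κ₀, κ₀ = finrank ℚ K := ⟨_, rfl⟩
  have hκ1 : 1 ≤ κ₀ := hκ₀ ▸ finrank_pos
  obtain ⟨e₀, he₀⟩ : ∃ e₀, e₀ = ⌈E⌉₊ := ⟨_, rfl⟩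
  have hEe : E ≤ e₀ := he₀ ▸ Nat.le_ceil E
  obtain ⟨k₃, hk₃⟩ : ∃ k₃, k₃ = 8 * κ₀ * (14 + 24 * e₀) + 1 := ⟨_, rfl⟩
  obtain ⟨k₆, hk₆⟩ : ∃ k₆, k₆ = 4 * d * (32 * k₃ + 1) := ⟨_, rfl⟩
  obtain ⟨k₀, hk₀⟩ : ∃ k₀, k₀ = 16 + 128 * κ₀ + (5 * e₀ + 2) + 32 * k₃ ^ 2 + B₀ + 1 := ⟨_, rfl⟩
  refine ⟨k₀, by omega, ?_⟩
  intro m B hm hB1 p hp hpk
  obtain ⟨C₃, hC₃⟩ : ∃ C₃, C₃ = k₃ * (m * B) := ⟨_, rfl⟩
  obtain ⟨C₆, hC₆⟩ : ∃ C₆, C₆ = 4 * d * (32 * C₃ + 1) := ⟨_, rfl⟩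
  obtain ⟨N₀, hN₀⟩ : ∃ N₀, N₀ = 16 + 128 * (B * κ₀) + (5 * e₀ + 2) + 32 * C₃ ^ 2 + B₀ + B := ⟨_, rfl⟩
  have hNp : N₀ < p := lt_of_le_of_lt (small_N₀ κ₀ e₀ B₀ hm hB1 hk₀ hC₃ hN₀) hpk
  have hmp : m < p := by
    have h1 : m ≤ m * B := Nat.le_mul_of_pos_right m hB1
    have h2 : m * B ≤ (m * B) ^ 2 := Nat.le_self_pow (by norm_num) _
    have h3 : (m * B) ^ 2 ≤ k₀ * (m * B) ^ 2 := Nat.le_mul_of_pos_left _ (by omega)
    omega
  obtain ⟨R, hR⟩ : ∃ R, R = κ₀ * (2 * m) := ⟨_, rfl⟩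
  obtain ⟨D₀, hD₀⟩ : ∃ D₀, D₀ = p ^ (R * (3 * C₆ + 31)) := ⟨_, rfl⟩
  obtain ⟨X, hX⟩ : ∃ X : ℝ, X = (p : ℝ) ^ (R * (C₆ + 10)) := ⟨_, rfl⟩
  have hp0 : (0 : ℝ) < p := by exact_mod_cast hp.pos
  have hX0 : 0 < X := by rw [hX]; positivity
  refine ⟨min (1 / X) (Real.exp (-(C₂ * (D₀ : ℝ) ^ (((1 : ℕ) : ℝ) + 1)))),
    lt_min (by positivity) (Real.exp_pos _), ?_⟩
  intro L _ _ _ _ hcen x hx hw hpDD
  rw [hH] at hBd
  obtain ⟨hw', hlim⟩ := transfer_scale hb hF hd hBd hx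
  refine ⟨_, hlim, ?_⟩
  rw [← hH] at hBd ⊢
  replace hw' := hw' hw
  rw [← hH] at hw'
  obtain ⟨z, hz⟩ : ∃ z, z = x 0 / x 1 := ⟨_, rfl⟩
  obtain ⟨D, hD⟩ : ∃ D, D = (cj K z).card := ⟨_, rfl⟩
  have hD' : finrank K (fod K x) = D := by
    rw [fod_eq, ← hz, ← card_cj_eq, hD]
  have hD1 : 1 ≤ D := by
    rw [hD]
    exact Finset.card_pos.mpr ⟨z, self_mem_cj z⟩
  -- the lower bound in the field of definition
  obtain ⟨x₀, b₀, hb₀, hx₀, hxx₀, _⟩ := descend (IntermediateField.adjoin K {z}) hx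
    (by rw [← hz]; exact IntermediateField.mem_adjoin_simple_self K z)
  have hcan₀ : canH H d x₀ = canH H d x :=
    canH_descend hhom (IntermediateField.adjoin K {z}).val hb₀ hxx₀
  have hlow := (hconcl (IntermediateField.adjoin K {z})).2 x₀ hx₀
    (wnd_descend hhom (IntermediateField.adjoin K {z}).val hb₀ hxx₀ hw')
  rw [hcan₀, ← card_cj_eq, ← hD] at hlow
  have hpos : 0 < canH H d x := lt_of_lt_of_le (Real.exp_pos _) hlow
  -- the closure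
  obtain ⟨E', hE'⟩ : ∃ E', E' = IntermediateField.fixedField (fixN K z) := ⟨_, rfl⟩
  have hzE : x 0 / x 1 ∈ IntermediateField.fixedField (fixN K z) := by
    rw [← hz]
    exact mem_fixed z (self_mem_cj z)
  obtain ⟨x', b', hb', hx', hxx', hax⟩ := descend (IntermediateField.fixedField (fixN K z)) hx hzE
  have hcan' : canH H d x' = canH H d x :=
    canH_descend hhom (IntermediateField.fixedField (fixN K z)).val hb' hxx'
  have hw'' : Wnd H x' :=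
    wnd_descend hhom (IntermediateField.fixedField (fixN K z)).val hb' hxx' hw'
  have hax' : ax H x' 0 = ⟨z, mem_fixed z (self_mem_cj z)⟩ := by
    change x' 0 / x' 1 = _
    rw [hax]
    apply Subtype.ext
    exact hz.symm
  have hDax : (cj K (ax H x' 0)).card = D := by
    rw [hax', card_cj_restr, hD]
  have hpm : ¬ p ∣ m := Nat.not_dvd_of_pos_of_lt (by omega) hmp
  have hpz : ¬ p ∣ D := by rwa [hD'] at hpDD
  have hpE : ¬ p ∣ finrank K (IntermediateField.fixedField (fixN K z)) := by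
    refine not_dvd3 (z := (⟨z, mem_fixed z (self_mem_cj z)⟩ :
      IntermediateField.fixedField (fixN K z))) grp (con_restr _ hcen) (faith_restr z) hp hpm
      (by omega) ?_
    rw [card_cj_restr, ← hD]
    exact hpz
  -- a prime over `p`
  have hspan : Ideal.span {(p : 𝓞 K)} ≠ ⊤ := by
    intro h
    have h1 : (Ideal.span {(p : 𝓞 K)}).absNorm = 1 := by rw [h, Ideal.absNorm_top]
    have h3 : (Ideal.span {(p : 𝓞 K)}).absNorm = p ^ finrank ℚ K := by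
      rw [Ideal.absNorm_span_singleton]
      have h4 : (p : 𝓞 K) = algebraMap ℤ (𝓞 K) p := by simp
      rw [h4, Algebra.norm_algebraMap, RingOfIntegers.rank]
      simp
    rw [h3, ← hκ₀] at h1
    have := Nat.one_lt_pow (n := κ₀) (by omega) hp.one_lt
    omega
  obtain ⟨P, hPm, hPle⟩ := Ideal.exists_le_maximal _ hspan
  have hpP : (p : 𝓞 K) ∈ P := hPle (Ideal.mem_span_singleton_self _)
  have hP0 : P ≠ ⊥ := by
    rintro rfl
    have h1 : (p : 𝓞 K) = 0 := hpP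
    have h2 : p ≠ 0 := hp.ne_zero
    exact h2 (by exact_mod_cast h1)
  let u : IsDedekindDomain.HeightOneSpectrum (𝓞 K) := ⟨P, hPm.isPrime, hP0⟩
  obtain ⟨v₀, hv₀⟩ : ∃ v₀ : FinitePlace K, v₀ = FinitePlace.mk u := ⟨_, rfl⟩
  have hmi : mi v₀ = P := by
    unfold mi
    rw [hv₀, FinitePlace.maximalIdeal_mk]
  rw [← hmi] at hpP
  obtain ⟨N₁, hN₁⟩ : ∃ N₁, N₁ = (mi v₀).absNorm := ⟨_, rfl⟩
  obtain ⟨N, hN⟩ : ∃ N, N = N₁ ^ (2 * m) := ⟨_, rfl⟩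
  have hpN₁ : p ≤ N₁ := hN₁ ▸ prime_le_absNorm (H420R3.mi_ne_bot v₀) hp hpP
  have hN₁N : N₁ ≤ N := hN ▸ Nat.le_self_pow (by omega) _
  have hNp' : N ≤ p ^ (κ₀ * (2 * m)) := by
    rw [hN, pow_mul p κ₀ (2 * m)]
    apply Nat.pow_le_pow_left
    rw [hN₁, hκ₀]
    exact absNorm_le_pow hp hpP
  have hN₀N : N₀ ≤ N := by omega
  by_cases hbig : D₀ ≤ D
  · have hbig' : N ^ (3 * C₆ + 31) ≤ D := by
      refine le_trans ?_ hbig
      rw [hD₀, hR, pow_mul]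
      exact Nat.pow_le_pow_left hNp' _
    have hlarge := at_prime3 (v₀ := v₀) (C₃ := C₃) (c := c) (m := m) (B := B)
      (L := IntermediateField.fixedField (fixN K z)) nrm con orb hBd hd hhom
      (fun m hm q hq => hc m (by omega) q hq) hm (con_restr _ hcen)
      (hgood _ (fun hmem => by
        have h1 := natCast_mem (P := mi v₀) hp hpP hmem
        have := Nat.le_of_dvd hB₀ h1
        omega)) hp hpP hpE hN₁ (by omega) (by omega) hN (by rw [← hκ₀]; omega)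
      (by
        rw [← hE]
        have h2 : ((5 * e₀ + 2 : ℕ) : ℝ) ≤ N := by
          have : 5 * e₀ + 2 ≤ N := by omega
          exact_mod_cast this
        push_cast at h2
        linarith)
      (by
        have hm0 : (1 : ℝ) ≤ m := by exact_mod_cast hm
        have hB0 : (1 : ℝ) ≤ B := by exact_mod_cast hB1
        rw [← hE, ← hκ₀, hC₃, hk₃]
        push_cast
        have h1 : (8 * κ₀ * (14 + 24 * E)) * (m * B) ≤ (8 * κ₀ * (14 + 24 * (e₀ : ℝ))) * (m * B) := by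
          apply mul_le_mul_of_nonneg_right _ (by positivity)
          apply mul_le_mul_of_nonneg_left _ (by positivity)
          linarith
        have h2 : (1 : ℝ) ≤ m * B := one_le_mul_of_one_le_of_one_le hm0 hB0
        calc 4 * ((B : ℝ) * κ₀) * (2 * m * (14 + 24 * E)) = (8 * κ₀ * (14 + 24 * E)) * (m * B) := by
              ring
          _ ≤ (8 * κ₀ * (14 + 24 * (e₀ : ℝ))) * (m * B) := h1
          _ < (8 * κ₀ * (14 + 24 * (e₀ : ℝ)) + 1) * (m * B) := by linarith)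
      (by omega) hx' hw'' (by rw [hcan']; exact hpos) hC₆ (by rw [hDax]; exact hbig')
    rw [hcan'] at hlarge
    have h3 : (N : ℝ) ^ (C₆ + 10) ≤ X := by
      rw [hX, hR, pow_mul]
      apply pow_le_pow_left₀ (Nat.cast_nonneg _)
      exact_mod_cast hNp'
    have h4 := mul_le_mul_of_nonneg_right h3 hpos.le
    refine (min_le_left _ _).trans ?_
    rw [div_le_iff₀ hX0, mul_comm]
    linarith
  · push Not at hbig
    refine (min_le_right _ _).trans (le_trans ?_ hlow)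
    rw [Real.exp_le_exp, neg_le_neg_iff]
    apply mul_le_mul_of_nonneg_left _ hC₂.le
    exact Real.rpow_le_rpow (Nat.cast_nonneg _) (by exact_mod_cast hbig.le) (by positivity)

end

end Pool.Agent.NH29.AC
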