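import Mathlib
import Pool.Agent.NH29.AC.Fin7
import Pool.Agent.NH29.AC.Fin8

/-!
Project AC: Galois extensions of extensions of bounded degree, final form.
-/

set_option autoImplicit false
set_option linter.unusedSectionVars false

namespace Pool.Agent.NH29.AC

open NumberField Module Filter Topology
open Pool.Agent.W238.Leh
open Pool.Agent.H627.LP hiding det_ineq det_ineq' local_gain
open Pool.Agent.NH29.AB

noncomputable section

variable {K : Type} [Field K] [NumberField K]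

/-- **the theorem** -/
theorem main9 (nrm : S_NRM) (con : S_CON) (orb : S_ORB) (grp : S_GRP) (clo : S_CLO3)
    (cor : S_COR3)
    {d : ℕ} (hd : 2 ≤ d) (F : Fin (1 + 1) → MvPolynomial (Fin (1 + 1)) K)
    (hF : ∀ i, (F i).IsHomogeneous d)
    (hmor : ∀ z : Fin (1 + 1) → AlgebraicClosure K,
      (∀ i, MvPolynomial.aeval z (F i) = 0) → z = 0) :
    ∃ C : ℕ, 0 < C ∧ ∀ r m B T : ℕ, 1 ≤ m → 1 ≤ B →
      T = C * r.factorial ^ 3 * m ^ 2 * B ^ r →
      (∃ C' : ℕ, 0 < C' ∧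
      ∀ (L : Type) [Field L] [NumberField L] [Algebra K L] (K' : IntermediateField K L)
        [IsGalois K' L],
        finrank K K' ≤ r →
        (∀ σ : Gal(L/K'), (Set.range fun g : Gal(L/K') => g * σ ^ m * g⁻¹).ncard ≤ B) →
        ∀ x : Fin (1 + 1) → L, x ≠ 0 → Wnd F x →
        ∃ h : ℝ, Tendsto (fun n : ℕ => Height.logHeight ((act F)^[n] x) /
            ((finrank ℚ L : ℝ) * (d : ℝ) ^ n)) atTop (𝓝 h) ∧
          1 / ((C' : ℝ) * (1 + Real.log (finrank K (fod K x))) ^ C') ≤ h ∧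
          (((T : ℝ) * (1 + Real.log (finrank K (fod K x)))) ^ T ≤ finrank K (fod K x) →
            1 / ((T : ℝ) * (1 + Real.log (finrank K (fod K x)))) ^ T ≤ h)) ∧
      ∀ p : ℕ, p.Prime → T ^ 2 < p → ∃ δ : ℝ, 0 < δ ∧
      ∀ (L : Type) [Field L] [NumberField L] [Algebra K L] (K' : IntermediateField K L)
        [IsGalois K' L],
        finrank K K' ≤ r →
        (∀ σ : Gal(L/K'), (Set.range fun g : Gal(L/K') => g * σ ^ m * g⁻¹).ncard ≤ B) →
        ∀ x : Fin (1 + 1) → L, x ≠ 0 → Wnd F x → ¬ p ∣ finrank K (fod K x) →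
        ∃ h : ℝ, Tendsto (fun n : ℕ => Height.logHeight ((act F)^[n] x) /
            ((finrank ℚ L : ℝ) * (d : ℝ) ^ n)) atTop (𝓝 h) ∧ δ ≤ h := by
  obtain ⟨C₁, hC₁, h7⟩ := main7 nrm con orb grp clo cor hd F hF hmor
  obtain ⟨C₂, hC₂, h8⟩ := main8 nrm con orb grp hd F hF hmor
  refine ⟨C₁ + C₂, by omega, ?_⟩
  intro r m B T hm hB hT
  have hf : 1 ≤ r.factorial := Nat.factorial_pos r
  have hf1 : 1 ≤ r.factorial * m := Nat.mul_pos hf hm
  have hf2 : 1 ≤ r.factorial * B ^ r := Nat.mul_pos hf (Nat.pow_pos hB)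
  constructor
  · obtain ⟨T₁, hT₁⟩ : ∃ T₁, T₁ = C₁ * r.factorial ^ 3 * m ^ 2 * B ^ r := ⟨_, rfl⟩
    obtain ⟨C', hC', h1⟩ := h7 r m B T₁ hm hB hT₁
    refine ⟨C', hC', ?_⟩
    intro L _ _ _ K' _ hdeg hcj x hx hw
    obtain ⟨h, ht, hb, hb'⟩ := h1 L K' hdeg hcj x hx hw
    refine ⟨h, ht, hb, ?_⟩
    obtain ⟨ℓ, hℓ⟩ : ∃ ℓ, ℓ = 1 + Real.log (finrank K (fod K x)) := ⟨_, rfl⟩
    rw [← hℓ] at hb' ⊢
    have hℓ1 : 1 ≤ ℓ := by
      have := Real.log_natCast_nonneg (finrank K (fod K x))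
      linarith
    have hTT : T₁ ≤ T := by
      rw [hT₁, hT]
      apply Nat.mul_le_mul_right
      apply Nat.mul_le_mul_right
      apply Nat.mul_le_mul_right
      omega
    have hT1 : 1 ≤ T₁ := by
      rw [hT₁]
      exact Nat.mul_pos (Nat.mul_pos (Nat.mul_pos hC₁ (Nat.pow_pos hf)) (Nat.pow_pos hm))
        (Nat.pow_pos hB)
    have hT1' : (1 : ℝ) ≤ T₁ := by exact_mod_cast hT1
    have hTT' : (T₁ : ℝ) ≤ T := by exact_mod_cast hTT
    have h2 : ((T₁ : ℝ) * ℓ) ^ T₁ ≤ ((T : ℝ) * ℓ) ^ T := by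
      calc ((T₁ : ℝ) * ℓ) ^ T₁ ≤ ((T₁ : ℝ) * ℓ) ^ T :=
            pow_le_pow_right₀ (one_le_mul_of_one_le_of_one_le hT1' hℓ1) hTT
        _ ≤ _ := pow_le_pow_left₀ (by positivity)
            (mul_le_mul_of_nonneg_right hTT' (by linarith)) _
    intro hD
    refine le_trans ?_ (hb' (h2.trans hD))
    exact one_div_le_one_div_of_le (by positivity) h2
  · intro p hp hTp
    have hlt : C₂ * ((r.factorial * m) * (r.factorial * B ^ r)) ^ 2 < p := by
      refine lt_of_le_of_lt ?_ hTp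
      have e1 : T = (C₁ + C₂) * (r.factorial * m) ^ 2 * (r.factorial * B ^ r) := by
        rw [hT]; ring
      obtain ⟨a, ha⟩ : ∃ a, a = r.factorial * m := ⟨_, rfl⟩
      obtain ⟨b, hb⟩ : ∃ b, b = r.factorial * B ^ r := ⟨_, rfl⟩
      rw [← ha, ← hb] at e1 ⊢
      rw [← ha] at hf1
      rw [e1]
      calc C₂ * (a * b) ^ 2 ≤ (C₁ + C₂) ^ 2 * (a ^ 2 * b) ^ 2 := by
            apply Nat.mul_le_mul
            · exact (Nat.le_add_left _ _).trans (Nat.le_self_pow (by norm_num) _)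
            · apply Nat.pow_le_pow_left
              exact Nat.mul_le_mul_right _ (Nat.le_self_pow (by norm_num) _)
        _ = _ := by ring
    obtain ⟨δ, hδ, h1⟩ := h8 _ _ hf1 hf2 p hp hlt
    refine ⟨δ, hδ, ?_⟩
    intro L _ _ _ K' _ hdeg hcj x hx hw hpx
    obtain ⟨M, i1, i2, i3, i4, i5, i6, H, N, hH, hHN, hZ, hN⟩ := clo K K' L r m B hdeg hcj
    obtain ⟨h, ht, hb⟩ := h1 M (cor Gal(M/K) H N r m B hH hB hHN hZ hN) (up M x) (up_ne hx)
      (wnd_up hw) (by rwa [fod_up])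
    exact ⟨h, ht.congr fun n => height_up, hb⟩

end

end Pool.Agent.NH29.AC
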