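import Pool.Agent.NH29.AC.Stm

/-!
# The primes which divide the order of a transitive group

If `p` divides the order of a faithful transitive group, but neither `m` nor the number of points, then some `m`-th
power has at least `p` conjugates.
-/

set_option autoImplicit false

namespace Pool.Agent.NH29.AC

namespace Grp

/-- an element `τ` of order `p` commutes with the elements of a set of less than `p` elements which is stable under
the conjugation by `τ` -/
lemma comm_small {G : Type} [Group G] {p : ℕ} (hp : p.Prime) {τ : G} (hτ : orderOf τ = p) {c : Set G}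
    (hfin : c.Finite) (hcard : c.ncard < p) (hst : ∀ x ∈ c, τ * x * τ⁻¹ ∈ c) {x : G} (hx : x ∈ c) :
    Commute τ x := by
  by_contra hne
  have hmem : ∀ k : ℕ, τ ^ k * x * (τ ^ k)⁻¹ ∈ c := by
    intro k
    induction k with
    | zero => simpa using hx
    | succ k ih =>
      have h := hst _ ih
      have e : τ * (τ ^ k * x * (τ ^ k)⁻¹) * τ⁻¹ = τ ^ (k + 1) * x * (τ ^ (k + 1))⁻¹ := by
        rw [pow_succ', mul_inv_rev]
        group
      rwa [e] at h
  have key : ∀ i j : ℕ, i < j → j < p →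
      τ ^ i * x * (τ ^ i)⁻¹ ≠ τ ^ j * x * (τ ^ j)⁻¹ := by
    intro i j hij hj he
    apply hne
    obtain ⟨k, rfl⟩ : ∃ k, j = i + k := ⟨j - i, by omega⟩
    have hk0 : 0 < k := by omega
    have hkp : k < p := by omega
    have h1 : x = τ ^ k * x * (τ ^ k)⁻¹ := by
      rw [pow_add, mul_inv_rev] at he
      have h2 : (τ ^ i)⁻¹ * (τ ^ i * x * (τ ^ i)⁻¹) * τ ^ i =
          (τ ^ i)⁻¹ * (τ ^ i * τ ^ k * x * ((τ ^ k)⁻¹ * (τ ^ i)⁻¹)) * τ ^ i := by rw [he]
      have h3 : (τ ^ i)⁻¹ * (τ ^ i * x * (τ ^ i)⁻¹) * τ ^ i = x := by group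
      have h4 : (τ ^ i)⁻¹ * (τ ^ i * τ ^ k * x * ((τ ^ k)⁻¹ * (τ ^ i)⁻¹)) * τ ^ i =
          τ ^ k * x * (τ ^ k)⁻¹ := by group
      rw [h3, h4] at h2
      exact h2
    have h2 : Commute (τ ^ k) x := by
      have h3 : x * τ ^ k = τ ^ k * x := by
        nth_rewrite 1 [h1]
        group
      exact h3.symm
    have hco : k.Coprime (orderOf τ) := by
      rw [hτ]
      exact Nat.Coprime.symm ((Nat.Prime.coprime_iff_not_dvd hp).mpr (Nat.not_dvd_of_pos_of_lt hk0 hkp))
    obtain ⟨l, hl⟩ := exists_pow_eq_self_of_coprime hco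
    have h3 := h2.pow_left l
    rwa [hl] at h3
  have hinj : Set.InjOn (fun k : ℕ => τ ^ k * x * (τ ^ k)⁻¹) ((Finset.range p : Finset ℕ) : Set ℕ) := by
    intro i hi j hj hij
    rw [Finset.mem_coe, Finset.mem_range] at hi hj
    rcases lt_trichotomy i j with h | h | h
    · exact (key i j h hj hij).elim
    · exact h
    · exact (key j i h hi hij.symm).elim
  have hle : p ≤ c.ncard := by
    rw [Set.ncard_eq_toFinset_card c hfin]
    have h := Finset.card_le_card_of_injOn (s := Finset.range p) (t := hfin.toFinset)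
      (fun k : ℕ => τ ^ k * x * (τ ^ k)⁻¹) (fun k _ => by
        rw [Finset.mem_coe, Set.Finite.mem_toFinset]
        exact hmem k) hinj
    rwa [Finset.card_range] at h
  omega

end Grp

open Grp in
theorem grp : S_GRP := by
  intro G X _ _ _ _ _ _ m B p hB hp hpm hBp hpX hdvd
  have hfact : Fact p.Prime := ⟨hp⟩
  obtain ⟨σ, hσ⟩ := exists_prime_orderOf_dvd_card' p hdvd
  have hcop : Nat.Coprime (orderOf σ) m := by
    rw [hσ]
    exact (Nat.Prime.coprime_iff_not_dvd hp).mpr hpm
  have hτ : orderOf (σ ^ m) = p := by rw [hcop.orderOf_pow, hσ]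
  have hB' := hB σ
  generalize hτd : σ ^ m = τ at hτ hB'
  set c : Set G := Set.range fun g : G => g * τ * g⁻¹ with hc
  have hcard : c.ncard < p := lt_of_le_of_lt hB' hBp
  have hfin : c.Finite := Set.toFinite c
  have hst : ∀ g : G, ∀ x ∈ c, g * x * g⁻¹ ∈ c := by
    rintro g _ ⟨h, rfl⟩
    refine ⟨g * h, ?_⟩
    simp only [mul_inv_rev, mul_assoc]
  have hcτ : ∀ x ∈ c, Commute τ x := fun x hx => comm_small hp hτ hfin hcard (hst τ) hx
  have hcc : ∀ x ∈ c, ∀ y ∈ c, Commute x y := by
    rintro _ ⟨g, rfl⟩ y hy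
    have h1 : Commute τ (g⁻¹ * y * g) := by
      have h2 := hst g⁻¹ y hy
      rw [inv_inv] at h2
      exact hcτ _ h2
    have h3 : τ * (g⁻¹ * y * g) = (g⁻¹ * y * g) * τ := h1
    change g * τ * g⁻¹ * y = y * (g * τ * g⁻¹)
    calc g * τ * g⁻¹ * y = g * (τ * (g⁻¹ * y * g)) * g⁻¹ := by group
      _ = g * ((g⁻¹ * y * g) * τ) * g⁻¹ := by rw [h3]
      _ = y * (g * τ * g⁻¹) := by group
  let T : Subgroup G := Subgroup.closure c
  have hT1 : ∀ x ∈ T, ∀ y ∈ c, Commute x y := by
    intro x hx y hy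
    induction hx using Subgroup.closure_induction with
    | mem x hx => exact hcc x hx y hy
    | one => exact Commute.one_left y
    | mul a b _ _ ha hb => exact ha.mul_left hb
    | inv a _ ha => exact ha.inv_left
  have hT2 : ∀ x ∈ T, ∀ y ∈ T, Commute x y := by
    intro x hx y hy
    induction hy using Subgroup.closure_induction with
    | mem y hy => exact hT1 x hx y hy
    | one => exact Commute.one_right x
    | mul a b _ _ ha hb => exact ha.mul_right hb
    | inv a _ ha => exact ha.inv_right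
  have hT3 : ∀ x ∈ T, x ^ p = 1 := by
    intro x hx
    induction hx using Subgroup.closure_induction with
    | mem x hx =>
      obtain ⟨g, rfl⟩ := hx
      change (g * τ * g⁻¹) ^ p = 1
      rw [conj_pow, ← hτ, pow_orderOf_eq_one]
      group
    | one => exact one_pow p
    | mul a b ha hb iha ihb => rw [(hT2 a ha b hb).mul_pow, iha, ihb, one_mul]
    | inv a _ ha => rw [inv_pow, ha, inv_one]
  have hPG : IsPGroup p T := by
    intro x
    refine ⟨1, ?_⟩
    rw [pow_one]
    apply Subtype.ext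
    rw [Subgroup.coe_pow, Subgroup.coe_one]
    exact hT3 x.1 x.2
  obtain ⟨y, hy⟩ := hPG.nonempty_fixed_point_of_prime_not_dvd_card X hpX
  have hfix : ∀ t ∈ c, t • y = y := by
    intro t ht
    exact hy ⟨t, Subgroup.subset_closure ht⟩
  have hone : τ = 1 := by
    apply FaithfulSMul.eq_of_smul_eq_smul (α := X)
    intro z
    obtain ⟨g, rfl⟩ := MulAction.exists_smul_eq G y z
    have h1 : g⁻¹ * τ * g ∈ c := ⟨g⁻¹, by simp only [inv_inv]⟩
    have h2 := hfix _ h1
    calc τ • g • y = g • (g⁻¹ * τ * g) • y := by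
          rw [smul_smul, smul_smul]
          congr 1
          group
      _ = g • y := by rw [h2]
      _ = (1 : G) • g • y := by rw [one_smul]
  rw [hone, orderOf_one] at hτ
  exact hp.one_lt.ne hτ

end Pool.Agent.NH29.AC
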