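import Pool.Agent.NH29.AC.Stm

/-!
# Project AC: the norm of the prime below
-/

set_option autoImplicit false

namespace Pool.Agent.NH29.AC

open NumberField Module
open scoped Pointwise

namespace Nrm

/-- a finite field in which `y ^ q = y` has at most `q` elements -/
lemma card_le (F : Type) [Field F] [Finite F] (q : ℕ) (hq : 1 < q) (h : ∀ y : F, y ^ q = y) :
    Nat.card F ≤ q := by
  classical
  have : Fintype F := Fintype.ofFinite F
  have hne : (Polynomial.X ^ q - Polynomial.X : Polynomial F) ≠ 0 :=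
    FiniteField.X_pow_card_sub_X_ne_zero F hq
  have h1 : (Finset.univ : Finset F) ⊆
      (Polynomial.X ^ q - Polynomial.X : Polynomial F).roots.toFinset := by
    intro y _
    rw [Multiset.mem_toFinset, Polynomial.mem_roots hne]
    simp [Polynomial.IsRoot, h y]
  rw [Nat.card_eq_fintype_card, ← Finset.card_univ]
  refine (Finset.card_le_card h1).trans ?_
  refine (Multiset.toFinset_card_le _).trans ?_
  refine (Polynomial.card_roots' _).trans ?_
  rw [FiniteField.X_pow_card_sub_X_natDegree_eq F hq]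

end Nrm

open Nrm in
/-- AC-NRM -/
theorem nrm : S_NRM := by
  intro K K' E _ _ _ _ _ _ _ _ _ _ P hPmax hP 𝔓 h𝔓 hunder φ hφ
  obtain ⟨Q, hQ⟩ : ∃ Q : Ideal (𝓞 K'), Q = 𝔓.under (𝓞 K') := ⟨_, rfl⟩
  have hQP : Q.under (𝓞 K) = P := by
    rw [hQ, Ideal.under_under, hunder]
  have hQprime : Q.IsPrime := by
    rw [hQ]
    exact Ideal.IsPrime.under (𝓞 K') 𝔓
  have hQne : Q ≠ ⊥ := by
    intro h
    apply hP
    rw [← hQP, h]
    ext x
    rw [Ideal.mem_under, Ideal.mem_bot, Ideal.mem_bot]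
    exact map_eq_zero_iff _ (FaithfulSMul.algebraMap_injective (𝓞 K) (𝓞 K'))
  have hQmax : Q.IsMaximal := hQprime.isMaximal hQne
  have hfinQ : Finite (𝓞 K' ⧸ Q) := Ideal.finiteQuotientOfFreeOfNeBot Q hQne
  obtain ⟨q, hqdef⟩ : ∃ q : ℕ, q = P.absNorm := ⟨_, rfl⟩
  have hq0 : q ≠ 0 := by
    rw [hqdef, Ne, Ideal.absNorm_eq_zero_iff]
    exact hP
  have hq1 : q ≠ 1 := by
    rw [hqdef, Ne, Ideal.absNorm_eq_one_iff]
    exact hPmax.ne_top
  have hq : 1 < q := by omega
  rw [← hQ, ← hqdef]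
  rw [← hqdef] at hφ
  -- the elements of the residue field
  have hpow : ∀ y : 𝓞 K' ⧸ Q, y ^ q = y := by
    intro y
    obtain ⟨x, rfl⟩ := Ideal.Quotient.mk_surjective y
    rw [← map_pow]
    symm
    rw [Ideal.Quotient.eq, hQ, Ideal.mem_under, map_sub, map_pow]
    have h1 := hφ (algebraMap (𝓞 K') (𝓞 E) x)
    have h2 : φ • (algebraMap (𝓞 K') (𝓞 E) x) = algebraMap (𝓞 K') (𝓞 E) x := by
      apply RingOfIntegers.ext
      exact φ.commutes (x : K')
    rw [h2] at h1
    exact h1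
  rw [Ideal.absNorm_apply, Submodule.cardQuot_apply]
  apply le_antisymm
  · let _ : Field (𝓞 K' ⧸ Q) := Ideal.Quotient.field Q
    exact card_le (𝓞 K' ⧸ Q) q hq hpow
  · rw [hqdef, Ideal.absNorm_apply, Submodule.cardQuot_apply]
    have hle : P ≤ Q.comap (algebraMap (𝓞 K) (𝓞 K')) := le_of_eq hQP.symm
    have hinj : Function.Injective (Ideal.quotientMap Q (algebraMap (𝓞 K) (𝓞 K')) hle) :=
      Ideal.quotientMap_injective' (le_of_eq hQP)
    exact Nat.card_le_card_of_injective _ hinj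

end Pool.Agent.NH29.AC
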