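import Pool.Agent.NH29.AC.Stm

set_option autoImplicit false

namespace Pool.Agent.NH29.AC

open scoped Pointwise

theorem orb : S_ORB := by
  intro G X _ _ _ H z
  classical
  -- orbit of G is the union of g • orbit H z over representatives of the left cosets
  have hfin : Finite (G ⧸ H) := inferInstance
  have : Fintype (G ⧸ H) := Fintype.ofFinite _
  have hsub : MulAction.orbit G z ⊆ ⋃ q : G ⧸ H, (fun x => q.out • x) '' MulAction.orbit H z := by
    rintro _ ⟨g, rfl⟩
    rw [Set.mem_iUnion]
    refine ⟨(g : G ⧸ H), ?_⟩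
    obtain ⟨h, hh⟩ := QuotientGroup.mk_out_eq_mul H g
    refine ⟨(h⁻¹ : H) • z, ⟨h⁻¹, rfl⟩, ?_⟩
    have : ((h⁻¹ : H) • z : X) = ((h : G)⁻¹) • z := rfl
    change (g : G ⧸ H).out • ((h⁻¹ : H) • z) = g • z
    rw [this, hh, smul_smul]
    congr 1
    group
  have hfo : (MulAction.orbit H z).Finite := Set.finite_range _
  have h1 : (⋃ q : G ⧸ H, (fun x => q.out • x) '' MulAction.orbit H z).Finite :=
    Set.finite_iUnion fun q => hfo.image _
  calc (MulAction.orbit G z).ncard
      ≤ (⋃ q : G ⧸ H, (fun x => q.out • x) '' MulAction.orbit H z).ncard := Set.ncard_le_ncard hsub h1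
    _ ≤ ∑ q : G ⧸ H, ((fun x => q.out • x) '' MulAction.orbit H z).ncard := by
        have := Set.ncard_iUnion_le_of_fintype (fun q : G ⧸ H => (fun x => q.out • x) '' MulAction.orbit H z)
        exact this
    _ ≤ ∑ q : G ⧸ H, (MulAction.orbit H z).ncard :=
        Finset.sum_le_sum fun q _ => Set.ncard_image_le hfo
    _ = H.index * (MulAction.orbit H z).ncard := by
        rw [Finset.sum_const, Finset.card_univ, smul_eq_mul, Subgroup.index, Nat.card_eq_fintype_card]

end Pool.Agent.NH29.AC
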